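import Pool.Agent.Lib.MP_16285c_agX.Gro.Spec

/-! # The base change of function fields and linear disjointness -/

set_option autoImplicit false

namespace Pool.Agent.Lib.MP_16285c_agX

open Pool.Agent.Lib.MP_16285c_ag Pool.Agent.Lib.MP_16285c_agN
open Pool.Agent.Lib.MP_16285c_agS (toF)

namespace GroBetM

section

variable {K k : Type} [Field K] [Field k] [Algebra K k] {n : ℕ}

/-- `finSuccEquiv` and the change of coefficients. -/
theorem fse_map (G : Pl (n + 1) K) :
    MvPolynomial.finSuccEquiv k n (MvPolynomial.map (algebraMap K k) G) =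
      (MvPolynomial.finSuccEquiv K n G).map (MvPolynomial.map (algebraMap K k)) := by
  induction G using MvPolynomial.induction_on with
  | C a =>
    rw [MvPolynomial.map_C]
    have h1 : MvPolynomial.finSuccEquiv K n (MvPolynomial.C a) = Polynomial.C (MvPolynomial.C a) :=
      (MvPolynomial.finSuccEquiv K n).commutes a
    have h2 : MvPolynomial.finSuccEquiv k n (MvPolynomial.C (algebraMap K k a)) =
        Polynomial.C (MvPolynomial.C (algebraMap K k a)) :=
      (MvPolynomial.finSuccEquiv k n).commutes (algebraMap K k a)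
    rw [h1, h2, Polynomial.map_C, MvPolynomial.map_C]
  | add p q hp hq => rw [map_add, map_add, map_add, hp, hq, Polynomial.map_add]
  | mul_X p i hp =>
    rw [map_mul, map_mul, map_mul, hp, Polynomial.map_mul, MvPolynomial.map_X]
    congr 1
    refine Fin.cases ?_ (fun j => ?_) i
    · rw [MvPolynomial.finSuccEquiv_X_zero, MvPolynomial.finSuccEquiv_X_zero, Polynomial.map_X]
    · rw [MvPolynomial.finSuccEquiv_X_succ, MvPolynomial.finSuccEquiv_X_succ, Polynomial.map_C,
        MvPolynomial.map_X]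

/-- Divisibility by a monic polynomial over the smaller field. -/
theorem dvd_of {P : Pl (n + 1) K} (hP : MonZ P) {s : ℕ} (b : Fin s → k) (hb : LinearIndependent K b)
    (H : Fin s → Pl (n + 1) K)
    (h : MvPolynomial.map (algebraMap K k) P ∣
      ∑ t, MvPolynomial.C (b t) * MvPolynomial.map (algebraMap K k) (H t)) : ∀ t, P ∣ H t := by
  let φ : MvPolynomial (Fin n) K →+* MvPolynomial (Fin n) k := MvPolynomial.map (algebraMap K k)
  let Q := MvPolynomial.finSuccEquiv K n P
  have hQ : Q.Monic := hP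
  have hQ' : (Q.map φ).Monic := hQ.map φ
  have h1 : Q.map φ ∣ ∑ t, (MvPolynomial.C (b t) : MvPolynomial (Fin n) k) •
      (MvPolynomial.finSuccEquiv K n (H t)).map φ := by
    have h2 := map_dvd (MvPolynomial.finSuccEquiv k n) h
    rw [fse_map, map_sum] at h2
    refine h2.trans (dvd_of_eq (Finset.sum_congr rfl fun t _ => ?_))
    rw [map_mul, fse_map]
    have h3 : MvPolynomial.finSuccEquiv k n (MvPolynomial.C (b t)) =
        Polynomial.C (MvPolynomial.C (b t)) := (MvPolynomial.finSuccEquiv k n).commutes (b t)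
    rw [h3, Polynomial.smul_eq_C_mul]
  rw [← Polynomial.modByMonic_eq_zero_iff_dvd hQ'] at h1
  have h4 : ∑ t, (MvPolynomial.C (b t) : MvPolynomial (Fin n) k) •
      ((MvPolynomial.finSuccEquiv K n (H t)) %ₘ Q).map φ = 0 := by
    rw [← h1]
    change _ = Polynomial.modByMonicHom (Q.map φ) _
    rw [map_sum]
    refine Finset.sum_congr rfl fun t _ => ?_
    rw [map_smul, Polynomial.modByMonicHom_apply, Polynomial.map_modByMonic φ hQ]
  have h5 : ∀ t, (MvPolynomial.finSuccEquiv K n (H t)) %ₘ Q = 0 := by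
    intro t
    ext i m
    have h6 := congrArg (fun f => MvPolynomial.coeff m (Polynomial.coeff f i)) h4
    simp only [Polynomial.finsetSum_coeff, Polynomial.coeff_smul, Polynomial.coeff_map, smul_eq_mul,
      MvPolynomial.coeff_sum, MvPolynomial.coeff_C_mul, Polynomial.coeff_zero,
      MvPolynomial.coeff_zero] at h6
    have h7 : ∑ t, (MvPolynomial.coeff m
        (Polynomial.coeff (MvPolynomial.finSuccEquiv K n (H t) %ₘ Q) i)) • b t = 0 := by
      rw [← h6]
      refine Finset.sum_congr rfl fun t _ => ?_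
      rw [MvPolynomial.coeff_map, Algebra.smul_def, mul_comm]
    rw [Polynomial.coeff_zero, MvPolynomial.coeff_zero]
    exact Fintype.linearIndependent_iff.1 hb _ h7 t
  intro t
  have h8 := (Polynomial.modByMonic_eq_zero_iff_dvd hQ).1 (h5 t)
  have h9 := map_dvd (MvPolynomial.finSuccEquiv K n).symm h8
  rwa [AlgEquiv.symm_apply_apply, AlgEquiv.symm_apply_apply] at h9

theorem dvd_one {P G : Pl (n + 1) K} (hP : MonZ P)
    (h : MvPolynomial.map (algebraMap K k) P ∣ MvPolynomial.map (algebraMap K k) G) : P ∣ G := by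
  refine dvd_of hP (fun _ : Fin 1 => (1 : k)) ?_ (fun _ => G) ?_ 0
  · rw [Fintype.linearIndependent_iff]
    intro g hg i
    rw [Fin.sum_univ_one, Algebra.smul_def, mul_one, map_eq_zero] at hg
    rwa [Subsingleton.elim i 0]
  · rw [Fin.sum_univ_one, MvPolynomial.C_1, one_mul]
    exact h

end

end GroBetM

open GroBetM

theorem tBet : StmtBet := by
  intro K k _ _ _ n P _ hP E _ _ _ _ _ E' _ _ _ _ ξ hξ
  -- the evaluation at the generic point over `K`
  let ε : Pl (n + 1) K →ₐ[K] E' := MvPolynomial.aeval ξ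
  have hε : ∀ G, ε G = MvPolynomial.aeval ξ (MvPolynomial.map (algebraMap K k) G) := by
    intro G
    rw [MvPolynomial.aeval_map_algebraMap]
  have hker : ∀ G, ε G = 0 → P ∣ G := by
    intro G hG
    rw [hε, hξ.ker] at hG
    exact dvd_one hP hG
  have hP0 : ε P = 0 := by
    rw [hε, hξ.ker]
  let β₀ : CR (Ideal.span {P}) →ₐ[K] E' := Ideal.Quotient.liftₐ _ ε (by
    intro a ha
    rw [Ideal.mem_span_singleton] at ha
    obtain ⟨c, rfl⟩ := ha
    rw [map_mul, hP0, zero_mul])
  have hβ₀ : ∀ G, β₀ (Ideal.Quotient.mk _ G) = ε G := fun G => rfl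
  have hinj : Function.Injective β₀ := by
    rw [injective_iff_map_eq_zero]
    intro a ha
    obtain ⟨G, rfl⟩ := Ideal.Quotient.mk_surjective a
    rw [hβ₀] at ha
    rw [Ideal.Quotient.eq_zero_iff_mem, Ideal.mem_span_singleton]
    exact hker G ha
  let β : E →ₐ[K] E' := IsFractionRing.liftAlgHom (K := E) hinj
  have hβ : ∀ G, β (toF (Ideal.span {P}) E G) =
      MvPolynomial.aeval ξ (MvPolynomial.map (algebraMap K k) G) := by
    intro G
    rw [← hε, ← hβ₀]
    exact IsFractionRing.lift_algebraMap hinj _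
  refine ⟨β, hβ, fun s b hb h hsum => ?_⟩
  obtain ⟨d, hd⟩ := IsLocalization.exist_integer_multiples (nonZeroDivisors (CR (Ideal.span {P})))
    (Finset.univ : Finset (Fin s)) h
  obtain ⟨D, hD⟩ := Ideal.Quotient.mk_surjective (d : CR (Ideal.span {P}))
  have hd0 : algebraMap (CR (Ideal.span {P})) E d ≠ 0 :=
    IsLocalization.to_map_ne_zero_of_mem_nonZeroDivisors E le_rfl d.2
  have hH : ∀ t, ∃ H : Pl (n + 1) K, toF (Ideal.span {P}) E H = toF (Ideal.span {P}) E D * h t := by
    intro t
    obtain ⟨a, ha⟩ := hd t (Finset.mem_univ t)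
    obtain ⟨H, rfl⟩ := Ideal.Quotient.mk_surjective a
    refine ⟨H, ?_⟩
    change algebraMap (CR (Ideal.span {P})) E (Ideal.Quotient.mk _ H) = _
    rw [ha, Algebra.smul_def]
    change _ = algebraMap (CR (Ideal.span {P})) E (Ideal.Quotient.mk _ D) * h t
    rw [hD]
  choose H hH using hH
  have h1 : ∑ t, MvPolynomial.aeval ξ (MvPolynomial.C (b t) *
      MvPolynomial.map (algebraMap K k) (H t)) = 0 := by
    have h2 : ∀ t, MvPolynomial.aeval ξ (MvPolynomial.C (b t) *
        MvPolynomial.map (algebraMap K k) (H t)) =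
        β (toF (Ideal.span {P}) E D) * (algebraMap k E' (b t) * β (h t)) := by
      intro t
      rw [map_mul, MvPolynomial.aeval_C, ← hβ, hH, map_mul]
      ring
    rw [Finset.sum_congr rfl fun t _ => h2 t, ← Finset.mul_sum, hsum, mul_zero]
  rw [← map_sum, hξ.ker] at h1
  intro t
  have h3 := dvd_of hP b hb H h1 t
  have h4 : toF (Ideal.span {P}) E (H t) = 0 := by
    change algebraMap (CR (Ideal.span {P})) E (Ideal.Quotient.mk _ (H t)) = 0
    rw [Ideal.Quotient.eq_zero_iff_mem.2 (Ideal.mem_span_singleton.2 h3), map_zero]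
  rw [hH] at h4
  refine (mul_eq_zero.1 h4).resolve_left ?_
  change algebraMap (CR (Ideal.span {P})) E (Ideal.Quotient.mk _ D) ≠ 0
  rw [hD]
  exact hd0

end Pool.Agent.Lib.MP_16285c_agX
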