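import Pool.Agent.Lib.MP_16285c_agX.Gro.Spec
import Pool.Agent.Lib.MP_16285c_agX.Top.NoEX

/-!
# The maps on the function fields over `K` and over `k` (CmpB)
-/

set_option autoImplicit false

namespace Pool.Agent.Lib.MP_16285c_agX

open Pool.Agent.Lib.MP_16285c_ag Pool.Agent.Lib.MP_16285c_agN
open Pool.Agent.Lib.MP_16285c_agS (toF)

namespace GroCmpBM

section

variable {n : ℕ} {K F : Type} [Field K] [Field F]

/-- The rational function `g` has the value `v` at the point of the homomorphism `e`. -/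
def Hv (e : Pl n K →+* F) (g : RF n K) (v : F) : Prop :=
  ∃ A D : Pl n K, e D ≠ 0 ∧ g * fr D = fr A ∧ v * e D = e A

theorem frmul (A B : Pl n K) : fr (A * B) = fr A * fr B := by
  show algebraMap _ _ _ = _
  rw [map_mul]

theorem fradd (A B : Pl n K) : fr (A + B) = fr A + fr B := by
  show algebraMap _ _ _ = _
  rw [map_add]

theorem fr_ne {e : Pl n K →+* F} {D : Pl n K} (h : e D ≠ 0) : fr D ≠ (0 : RF n K) := by
  intro h0
  have h1 : D = 0 := LowM.fr_inj (h0.trans (map_zero _).symm)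
  exact h (by rw [h1, map_zero])

theorem uniq {e : Pl n K →+* F} {g : RF n K} {v v' : F} (h : Hv e g v) (h' : Hv e g v') : v = v' := by
  obtain ⟨A, D, hD, h1, h2⟩ := h
  obtain ⟨A', D', hD', h1', h2'⟩ := h'
  have h3 : A * D' = A' * D := by
    apply LowM.fr_inj
    rw [frmul, frmul, ← h1, ← h1']
    ring
  have h4 := congrArg e h3
  rw [map_mul, map_mul, ← h2, ← h2'] at h4
  apply mul_right_cancel₀ (mul_ne_zero hD hD')
  linear_combination h4

theorem add {e : Pl n K →+* F} {g g' : RF n K} {v v' : F} (h : Hv e g v) (h' : Hv e g' v') :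
    Hv e (g + g') (v + v') := by
  obtain ⟨A, D, hD, h1, h2⟩ := h
  obtain ⟨A', D', hD', h1', h2'⟩ := h'
  refine ⟨A * D' + A' * D, D * D', ?_, ?_, ?_⟩
  · rw [map_mul]
    exact mul_ne_zero hD hD'
  · rw [fradd, frmul, frmul, frmul, ← h1, ← h1']
    ring
  · rw [map_add, map_mul, map_mul, map_mul, ← h2, ← h2']
    ring

theorem mul {e : Pl n K →+* F} {g g' : RF n K} {v v' : F} (h : Hv e g v) (h' : Hv e g' v') :
    Hv e (g * g') (v * v') := by
  obtain ⟨A, D, hD, h1, h2⟩ := h
  obtain ⟨A', D', hD', h1', h2'⟩ := h'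
  refine ⟨A * A', D * D', ?_, ?_, ?_⟩
  · rw [map_mul]
    exact mul_ne_zero hD hD'
  · rw [frmul, frmul, ← h1, ← h1']
    ring
  · rw [map_mul, map_mul, ← h2, ← h2']
    ring

theorem pol (e : Pl n K →+* F) (G : Pl n K) : Hv e (fr G) (e G) := by
  refine ⟨G, 1, ?_, ?_, ?_⟩
  · rw [map_one]
    exact one_ne_zero
  · show fr G * algebraMap _ _ _ = fr G
    rw [map_one, mul_one]
  · rw [map_one, mul_one]

/-- The values of the images. -/
theorem step (e : Pl n K →+* F) (σ : RF n K →ₐ[K] RF n K) (φ : F →+* F)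
    (hC : ∀ c : K, φ (e (MvPolynomial.C c)) = e (MvPolynomial.C c))
    (hX : ∀ i, Hv e (σ (gen n K i)) (φ (e (MvPolynomial.X i)))) {g : RF n K} {v : F}
    (h : Hv e g v) : Hv e (σ g) (φ v) := by
  have hG : ∀ G : Pl n K, Hv e (σ (fr G)) (φ (e G)) := by
    intro G
    induction G using MvPolynomial.induction_on with
    | C c =>
      have h1 : σ (fr (MvPolynomial.C c)) = fr (MvPolynomial.C c) := by
        have h2 : (fr (MvPolynomial.C c) : RF n K) = algebraMap K (RF n K) c := by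
          rw [IsScalarTower.algebraMap_apply K (MvPolynomial (Fin n) K) (RF n K)]
          rfl
        rw [h2]
        exact σ.commutes c
      rw [h1, hC]
      exact pol e _
    | add p q hp hq =>
      rw [fradd, map_add, map_add, map_add]
      exact add hp hq
    | mul_X p i hp =>
      rw [frmul, map_mul, map_mul, map_mul]
      exact mul hp (hX i)
  obtain ⟨A, D, hD, h1, h2⟩ := h
  obtain ⟨N1, D1, hD1, a1, a2⟩ := hG D
  obtain ⟨N2, D2, hD2, b1, b2⟩ := hG A
  have hφD : φ (e D) ≠ 0 := fun h' => hD ((map_eq_zero_iff φ φ.injective).1 h')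
  have hN1 : e N1 ≠ 0 := by
    rw [← a2]
    exact mul_ne_zero hφD hD1
  have c1 : σ g * σ (fr D) = σ (fr A) := by rw [← map_mul, h1]
  have c2 : φ v * φ (e D) = φ (e A) := by rw [← map_mul, h2]
  refine ⟨N2 * D1, N1 * D2, ?_, ?_, ?_⟩
  · rw [map_mul]
    exact mul_ne_zero hN1 hD2
  · rw [frmul, frmul, ← a1, ← b1, ← c1]
    ring
  · rw [map_mul, map_mul, ← a2, ← b2, ← c2]
    ring

end

end GroCmpBM

open GroCmpBM in
theorem tCmpB : StmtCmpB := by
  intro K k _ _ _ n P hP E _ _ _ _ _ E' _ _ _ _ ξ β hβ f σ φ M ρ hf hden hfv hR h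
  obtain ⟨A, B, hB, hAB⟩ := NoEXM.frac (P := P) h
  let e : Pl (n + 1) K →+* E' :=
    ((MvPolynomial.aeval ξ : MvPolynomial (Fin (n + 1)) k →ₐ[k] E') :
      MvPolynomial (Fin (n + 1)) k →+* E').comp (MvPolynomial.map (algebraMap K k))
  have he : ∀ G, e G = β (toF (Ideal.span {P}) E G) := fun G => (hβ G).symm
  have hinj : Function.Injective β := RingHom.injective (β : E →+* E')
  have hne : ∀ D : Pl (n + 1) K, ¬ P ∣ D → e D ≠ 0 := by
    intro D hD h0
    rw [he] at h0
    exact hD ((NoEXM.ker (E := E) D).1 (hinj (h0.trans (map_zero β).symm)))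
  have hC : ∀ c : K, (φ : E' →+* E') (e (MvPolynomial.C c)) = e (MvPolynomial.C c) := by
    intro c
    have h1 : e (MvPolynomial.C c) = algebraMap k E' (algebraMap K k c) := by
      show MvPolynomial.aeval ξ (MvPolynomial.map (algebraMap K k) (MvPolynomial.C c)) = _
      rw [MvPolynomial.map_C, MvPolynomial.aeval_C]
    rw [h1]
    exact φ.commutes _
  have hX : ∀ i, Hv e (σ (gen (n + 1) K i)) ((φ : E' →+* E') (e (MvPolynomial.X i))) := by
    intro i
    refine ⟨f.num i, f.den i, hden i, (hf i).2, ?_⟩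
    have h1 : e (MvPolynomial.X i) = ξ i := by
      show MvPolynomial.aeval ξ (MvPolynomial.map (algebraMap K k) (MvPolynomial.X i)) = _
      rw [MvPolynomial.map_X, MvPolynomial.aeval_X]
    rw [h1]
    have h2 : (φ : E' →+* E') (ξ i) = fvn (f.map (algebraMap K k)) ξ i := (hfv i).symm
    rw [h2]
    exact div_mul_cancel₀ _ (hden i)
  have hpow : ∀ (m : ℕ) (g : RF (n + 1) K) (v : E'), Hv e g v → Hv e ((σ ^ m) g) ((φ ^ m) v) := by
    intro m
    induction m with
    | zero =>
      intro g v hg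
      exact hg
    | succ m ih =>
      intro g v hg
      rw [pow_succ, pow_succ]
      exact ih _ _ (step e σ (φ : E' →+* E') hC hX hg)
  have hB' : fr B ≠ (0 : RF (n + 1) K) := fr_ne (hne B hB)
  have hg : Hv e (fr A / fr B) (β h) := by
    refine ⟨A, B, hne B hB, div_mul_cancel₀ _ hB', ?_⟩
    rw [he, he, ← hAB, map_mul]
  have hBm : B ∉ Ideal.span {P} := fun h' => hB (Ideal.mem_span_singleton.1 h')
  obtain ⟨N, D, hD, h1, h2⟩ := hR (fr A / fr B) h ⟨A, B, hBm, div_mul_cancel₀ _ hB', hAB⟩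
  have hDm : ¬ P ∣ D := fun h' => hD (Ideal.mem_span_singleton.2 h')
  have hg2 : Hv e ((σ ^ M) (fr A / fr B)) (β (ρ h)) := by
    refine ⟨N, D, hne D hDm, h1, ?_⟩
    have h3 : ρ h * toF (Ideal.span {P}) E D = toF (Ideal.span {P}) E N := h2
    rw [he, he, ← h3, map_mul]
  exact uniq hg2 (hpow M _ _ hg)

end Pool.Agent.Lib.MP_16285c_agX
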