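import Pool.Agent.Lib.MP_16285c_agX.Gro.Spec

/-! # The degrees over a smaller field -/

set_option autoImplicit false

namespace Pool.Agent.Lib.MP_16285c_agX

open Pool.Agent.Lib.MP_16285c_ag Pool.Agent.Lib.MP_16285c_agN

namespace GroDescXM

variable {K k E E' : Type} [Field K] [Field k] [Algebra K k] [Field E] [Field E'] [Algebra K E]
  [Algebra k E'] [Algebra K E'] [IsScalarTower K k E'] (β : E →ₐ[K] E')

/-- Linear disjointness of `k` and `E` over `K`. -/
def Dj : Prop :=
  ∀ (s : ℕ) (b : Fin s → k), LinearIndependent K b → ∀ h : Fin s → E,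
    ∑ t, algebraMap k E' (b t) * β (h t) = 0 → ∀ t, h t = 0

variable (k) in
theorem be_al (c : K) : β (algebraMap K E c) = algebraMap k E' (algebraMap K k c) := by
  rw [β.commutes, IsScalarTower.algebraMap_apply K k E']

section phi

variable {τ : Type} (b : Module.Basis τ K k)

/-- combinations of the elements of a basis of `k` over `K` with coefficients in the function field -/
noncomputable def Phi : (τ →₀ E) →+ E' :=
  Finsupp.liftAddHom fun t =>
    (AddMonoidHom.mulLeft (algebraMap k E' (b t))).comp (β : E →+ E')

theorem phi_apply (f : τ →₀ E) :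
    Phi β b f = f.sum fun t x => algebraMap k E' (b t) * β x := rfl

theorem phi_inj (hdj : Dj (k := k) β) (f : τ →₀ E) (hf : Phi β b f = 0) : f = 0 := by
  classical
  let e := f.support.equivFin.symm
  have h1 : ∑ j, algebraMap k E' (b (e j)) * β (f (e j)) = 0 := by
    rw [← hf, phi_apply, Finsupp.sum]
    rw [← Finset.sum_coe_sort f.support
      (fun t => algebraMap k E' (b t) * β (f t))]
    exact Equiv.sum_comp e (fun t : f.support => algebraMap k E' (b t) * β (f t))
  have h2 := hdj _ (fun j => b (e j)) (b.linearIndependent.comp (fun j => (e j : τ))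
    (Subtype.val_injective.comp e.injective)) (fun j => f (e j)) h1
  ext t
  by_contra ht
  have ht' : t ∈ f.support := Finsupp.mem_support_iff.mpr ht
  have h3 := h2 (e.symm ⟨t, ht'⟩)
  rw [Equiv.apply_symm_apply] at h3
  exact ht h3

/-- the product of a constant and an element of the smaller function field -/
theorem phi_smul (S : Set E) (l : k) (x : E) (hx : x ∈ IntermediateField.adjoin K S) :
    ∃ f : τ →₀ E, (∀ t, f t ∈ IntermediateField.adjoin K S) ∧
      Phi β b f = algebraMap k E' l * β x := by
  refine ⟨(b.repr l).mapRange (fun c => c • x) (zero_smul K x), fun t => ?_, ?_⟩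
  · rw [Finsupp.mapRange_apply]
    exact IntermediateField.smul_mem _ hx
  · rw [phi_apply, Finsupp.sum_mapRange_index (fun t => by rw [map_zero, mul_zero])]
    have h1 : ∀ (t : τ) (c : K), algebraMap k E' (b t) * β (c • x) =
        algebraMap k E' (c • b t) * β x := by
      intro t c
      rw [Algebra.smul_def, Algebra.smul_def, map_mul, map_mul, be_al k]
      ring
    simp_rw [h1]
    rw [Finsupp.sum, ← Finset.sum_mul, ← map_sum]
    congr 2
    exact b.linearCombination_repr l

theorem phi_span (S : Set E) (x : E') (hx : x ∈ Algebra.adjoin k (β '' S)) :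
    ∃ f : τ →₀ E, (∀ t, f t ∈ IntermediateField.adjoin K S) ∧ Phi β b f = x := by
  classical
  induction hx using Algebra.adjoin_induction with
  | mem x hx =>
    obtain ⟨s, hs, rfl⟩ := hx
    obtain ⟨f, hf, hf'⟩ := phi_smul β b S (1 : k) s (IntermediateField.subset_adjoin K S hs)
    exact ⟨f, hf, by rw [hf', map_one, one_mul]⟩
  | algebraMap l =>
    obtain ⟨f, hf, hf'⟩ := phi_smul β b S l 1 (one_mem _)
    exact ⟨f, hf, by rw [hf', map_one, mul_one]⟩
  | add x y _ _ hx hy =>
    obtain ⟨f, hf, rfl⟩ := hx
    obtain ⟨g, hg, rfl⟩ := hy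
    exact ⟨f + g, fun t => add_mem (hf t) (hg t), map_add _ _ _⟩
  | mul x y _ _ hx hy =>
    obtain ⟨f, hf, rfl⟩ := hx
    obtain ⟨g, hg, rfl⟩ := hy
    have h1 : ∀ t u, ∃ h : τ →₀ E, (∀ v, h v ∈ IntermediateField.adjoin K S) ∧
        Phi β b h = algebraMap k E' (b t * b u) * β (f t * g u) := fun t u =>
      phi_smul β b S _ _ (mul_mem (hf t) (hg u))
    choose h hh hh' using h1
    refine ⟨∑ t ∈ f.support, ∑ u ∈ g.support, h t u, fun v => ?_, ?_⟩
    · rw [Finsupp.finsetSum_apply]
      refine sum_mem fun t _ => ?_
      rw [Finsupp.finsetSum_apply]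
      exact sum_mem fun u _ => hh t u v
    · rw [map_sum, phi_apply, phi_apply, Finsupp.sum, Finsupp.sum, Finset.sum_mul_sum]
      refine Finset.sum_congr rfl fun t _ => ?_
      rw [map_sum]
      refine Finset.sum_congr rfl fun u _ => ?_
      rw [hh', map_mul, map_mul]
      ring

end phi

open scoped IntermediateField.algebraAdjoinAdjoin

theorem key (hdj : Dj (k := k) β) {m : ℕ} (y : Fin m → E)
    (hy' : IntermediateField.adjoin k (Set.range fun i => β (y i)) = ⊤) (S : Set E) :
    Module.finrank (IntermediateField.adjoin K S) E ≤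
      Module.finrank (IntermediateField.adjoin k (β '' S)) E' := by
  classical
  rcases Nat.eq_zero_or_pos (Module.finrank (IntermediateField.adjoin K S) E) with h0 | hpos
  · rw [h0]
    exact Nat.zero_le _
  have hfin : Module.Finite (IntermediateField.adjoin K S) E := Module.finite_of_finrank_pos hpos
  set κ := IntermediateField.adjoin K S with hκ
  set κ' := IntermediateField.adjoin k (β '' S) with hκ'
  -- `β` maps `κ` into `κ'`
  have hmap : ∀ x ∈ κ, β x ∈ κ' := by
    intro x hx
    induction hx using IntermediateField.adjoin_induction with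
    | mem x hx => exact IntermediateField.subset_adjoin k _ ⟨x, hx, rfl⟩
    | algebraMap c =>
      rw [be_al k]
      exact κ'.algebraMap_mem _
    | add x y _ _ hx hy =>
      rw [map_add]
      exact add_mem hx hy
    | inv x _ hx =>
      rw [map_inv₀]
      exact inv_mem hx
    | mul x y _ _ hx hy =>
      rw [map_mul]
      exact mul_mem hx hy
  let γ : κ →+* κ' := ((β : E →+* E').comp (algebraMap κ E)).codRestrict κ' fun x => hmap _ x.2
  have hγ : (algebraMap κ' E').comp γ = (β : E →+* E').comp (algebraMap κ E) := rfl
  -- finiteness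
  have hfin' : Module.Finite κ' E' := by
    have h1 : ∀ x ∈ Set.range (fun i => β (y i)), IsIntegral κ' x := by
      rintro _ ⟨i, rfl⟩
      obtain ⟨p, hp, hp0⟩ := IsIntegral.of_finite κ (y i)
      refine ⟨p.map γ, hp.map γ, ?_⟩
      rw [Polynomial.eval₂_map, hγ]
      change Polynomial.eval₂ ((β : E →+* E').comp (algebraMap κ E)) ((β : E →+* E') (y i)) p = 0
      rw [← Polynomial.hom_eval₂, hp0, map_zero]
    have h2 : FiniteDimensional κ' (IntermediateField.adjoin κ' (Set.range (fun i => β (y i)))) :=
      IntermediateField.finiteDimensional_adjoin h1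
    have h3 : IntermediateField.adjoin κ' (Set.range (fun i => β (y i))) = ⊤ := by
      rw [eq_top_iff]
      intro x _
      have hx : x ∈ IntermediateField.adjoin k (Set.range fun i => β (y i)) := by
        rw [hy']
        exact IntermediateField.mem_top
      have h4 : IntermediateField.adjoin k (Set.range fun i => β (y i)) ≤
          (IntermediateField.adjoin κ' (Set.range (fun i => β (y i)))).restrictScalars k :=
        IntermediateField.adjoin_le_iff.2 (IntermediateField.subset_adjoin κ' _)
      exact h4 hx
    rw [h3] at h2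
    exact Module.Finite.equiv (IntermediateField.topEquiv (F := κ') (E := E')).toLinearEquiv
  -- linear independence
  have hfree : Module.Free κ E := Module.Free.of_divisionRing κ E
  let w := Module.finBasis κ E
  have hli : LinearIndependent κ' (fun i => β (w i)) := by
    have h1 : LinearIndependent (Algebra.adjoin k (β '' S)) (fun i => β (w i)) := by
      rw [Fintype.linearIndependent_iff]
      intro g hg
      let b := Module.Basis.ofVectorSpace K k
      have h2 : ∀ i, ∃ f : _ →₀ E, (∀ t, f t ∈ κ) ∧ Phi β b f = (g i : E') :=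
        fun i => phi_span β b S _ (g i).2
      choose f hf hf' using h2
      have h3 : Phi β b (∑ i, (f i).mapRange (fun x => x * w i) (zero_mul _)) = 0 := by
        rw [map_sum, ← hg]
        refine Finset.sum_congr rfl fun i _ => ?_
        have h4 : (g i) • β (w i) = (g i : E') * β (w i) := rfl
        rw [h4, ← hf' i, phi_apply, phi_apply,
          Finsupp.sum_mapRange_index (fun t => by rw [map_zero, mul_zero]), Finsupp.sum_mul]
        refine Finsupp.sum_congr fun t _ => ?_
        rw [map_mul, mul_assoc]
      have h4 := phi_inj β b hdj _ h3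
      intro i
      have h5 : f i = 0 := by
        ext t
        have h6 := DFunLike.congr_fun h4 t
        rw [Finsupp.finsetSum_apply] at h6
        simp_rw [Finsupp.mapRange_apply] at h6
        have h7 := Fintype.linearIndependent_iff.1 w.linearIndependent
          (fun i => (⟨f i t, hf i t⟩ : κ)) h6 i
        exact congrArg Subtype.val h7
      apply Subtype.ext
      rw [← hf' i, h5, map_zero]
      rfl
    exact (LinearIndependent.iff_fractionRing (Algebra.adjoin k (β '' S)) κ').mp h1
  have h8 := hli.fintype_card_le_finrank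
  rwa [Fintype.card_fin] at h8

theorem lf_be {c m : ℕ} (A : Fin c → Fin m → K) (g : Fin m → E) :
    Set.range (lfX (fun i j => algebraMap K k (A i j)) (fun i => β (g i))) =
      β '' Set.range (lfX A g) := by
  rw [← Set.range_comp]
  congr 1
  funext i
  rw [Function.comp, lfX, lfX, map_sum]
  refine Finset.sum_congr rfl fun j _ => ?_
  rw [map_mul, be_al k]

end GroDescXM

open GroDescXM

theorem tDescX : StmtDescX := by
  intro K k _ _ _ E E' _ _ _ _ _ _ β hdj m y g _ hy' n r
  refine iSup₂_le fun A B => ?_
  have h1 : fldX (fun i j => algebraMap K k (A i j)) (fun i j => algebraMap K k (B i j))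
      (fun i => β (y i)) (fun i => β (g i)) =
      IntermediateField.adjoin k (β '' (Set.range (lfX A y) ∪ Set.range (lfX B g))) := by
    rw [fldX, Set.image_union, lf_be β A y, lf_be β B g]
  refine le_trans ?_ (le_iSup₂ (f := fun (A : Fin (n - r) → Fin m → k) (B : Fin r → Fin m → k) =>
    (Module.finrank (fldX A B (fun i => β (y i)) (fun i => β (g i))) E' : ENNReal))
    (fun i j => algebraMap K k (A i j)) (fun i j => algebraMap K k (B i j)))
  rw [h1, Nat.cast_le]
  exact key β hdj y hy' _

end Pool.Agent.Lib.MP_16285c_agX
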