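import Pool.Agent.Lib.MP_16285c_agX.G.Spec
import Pool.Agent.Lib.MP_16285c_agN.Degr.Spec

/-!
# Growth on subvarieties of the hypersurface by dynamical degrees: statements (section D' of note 4936)

`𝔮 = span {P}` is the ideal of the hypersurface, `E` its function field (over `K`), `𝔭 ⊇ 𝔮` the ideal of a subvariety `Z` with `∂P/∂z ∉ 𝔭`, `L` its function field, `RsE 𝔮 𝔭 E L h u`:
the rational function `h` is regular along `Z` and its restriction is `u`. `y : Fin m → E` are the coordinates of the original variety, `u i` the restrictions of the `y i`. Aim (`StmtDegrPX`):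
`[L : ρb L] ≤ C * degrX r y (ρ y)` where `C` depends only on `Z`. Then descent from `k` to the field of definition `K`, and `StmtGroX` (`G/Spec.lean`).

Every lemma is a `Prop` with its complete proof in the docstring; the files proving them are independent: used statements are hypotheses
(file `Gro/X.lean`, `theorem tX : StmtX`, or `StmtY → StmtX`, namespace `Pool.Agent.Lib.MP_16285c_agX`, auxiliary lemmas in the namespace `Pool.Agent.Lib.MP_16285c_agX.GroXM`). Many files are edits of landed files of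
`Lib/MP_16285c_agN/Degr`. `toF 𝔭 L : Pl n K →+* L` is `algebraMap (CR 𝔭) L ∘ mk` (`Lib/MP_16285c_agS/Top/Defs.lean`). General statements of `Degr/Spec.lean` used as they are: `StmtCnt`, `StmtNum`, `StmtVd`, `StmtNN`, `StmtUpF`, `StmtUp`, `StmtReal2`.
-/

set_option autoImplicit false

namespace Pool.Agent.Lib.MP_16285c_agX

open Pool.Agent.Lib.MP_16285c_ag Pool.Agent.Lib.MP_16285c_agN
open Pool.Agent.Lib.MP_16285c_agS (toF)

/-- The function `h` on `V(𝔮)` is regular along `V(𝔭)` and its restriction is `u`; `E`, `L` are the fields of fractions of `K[x] / 𝔮`, `K[x] / 𝔭`, `𝔮 ≤ 𝔭`. -/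
def RsE {K : Type} [Field K] {n : ℕ} (𝔮 𝔭 : Ideal (Pl n K)) (E L : Type) [Field E] [Algebra (CR 𝔮) E] [Field L]
    [Algebra (CR 𝔭) L] (h : E) (u : L) : Prop :=
  ∃ A B : Pl n K, B ∉ 𝔭 ∧ h * toF 𝔮 E B = toF 𝔮 E A ∧ u * toF 𝔭 L B = toF 𝔭 L A

/-! ## Residues -/

/-- (E1) Residues. PROOF. `toF 𝔮 E G = 0 ↔ G ∈ 𝔮`, `toF 𝔭 L G = 0 ↔ G ∈ 𝔭` (`IsFractionRing.injective`, `Ideal.Quotient.eq_zero_iff_mem`). Uniqueness: from `(A, B)`, `(A', B')`: `toF 𝔮 E (A * B' - A' * B) = 0`, so `A * B' - A' * B ∈ 𝔮 ≤ 𝔭`, so `u * B̄ * B̄' = Ā * B̄' = Ā' * B̄ = u' * B̄' * B̄` in `L`, `B̄, B̄' ≠ 0`. Constants: `B = 1`, `A = C c` (scalar towers).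
Sum and product: `B * B' ∉ 𝔭`. Inverse: `u ≠ 0` and `B ∉ 𝔭` give `A ∉ 𝔭`, so `A ∉ 𝔮`, `h ≠ 0`; take `(B, A)`. -/
def StmtRsE : Prop :=
  ∀ (K : Type) [Field K] (n : ℕ) (𝔮 𝔭 : Ideal (Pl n K)) [𝔮.IsPrime] [𝔭.IsPrime], 𝔮 ≤ 𝔭 →
    ∀ (E : Type) [Field E] [Algebra (CR 𝔮) E] [IsFractionRing (CR 𝔮) E] [Algebra K E] [IsScalarTower K (CR 𝔮) E]
      (L : Type) [Field L] [Algebra (CR 𝔭) L] [IsFractionRing (CR 𝔭) L] [Algebra K L] [IsScalarTower K (CR 𝔭) L],
      (∀ h u u', RsE 𝔮 𝔭 E L h u → RsE 𝔮 𝔭 E L h u' → u = u') ∧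
      (∀ G, RsE 𝔮 𝔭 E L (toF 𝔮 E G) (toF 𝔭 L G)) ∧
      (∀ c : K, RsE 𝔮 𝔭 E L (algebraMap K E c) (algebraMap K L c)) ∧
      (∀ h h' u u', RsE 𝔮 𝔭 E L h u → RsE 𝔮 𝔭 E L h' u' → RsE 𝔮 𝔭 E L (h + h') (u + u')) ∧
      (∀ h h' u u', RsE 𝔮 𝔭 E L h u → RsE 𝔮 𝔭 E L h' u' → RsE 𝔮 𝔭 E L (h * h') (u * u')) ∧
      ∀ h u, RsE 𝔮 𝔭 E L h u → u ≠ 0 → h ≠ 0 ∧ RsE 𝔮 𝔭 E L h⁻¹ u⁻¹

/-- (E2) Compatibility with the restrictions of `σ`. PROOF. It suffices to treat `m = 1` (induction on `m`: `(ρ ^ (m+1)) h = (ρ ^ m) (ρ h)`). Let `h * B̄ = Ā`, `B ∉ 𝔭`, as in `RsE`. `g = fr A / fr B` (`fr B ≠ 0`): `Rsd 𝔮 E g h` and `Rsd 𝔭 L g u` (`N = A`, `E = B`; `B ∉ 𝔮`). So `Rsd 𝔮 E (σ g) (ρ h)` and `Rsd 𝔭 L (σ g) (ρb u)`. The latter gives `N, D` with `D ∉ 𝔭`, `σ g * fr D = fr N`,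
`ρb u * D̄ = N̄` in `L`. With the same `N, D` also `Rsd 𝔮 E (σ g) v` for `v = toF N / toF D` (`D ∉ 𝔮`), and residues are unique (`LowM.uniq` in `Lib/MP_16285c_agN/Low.lean`), so `ρ h = v` and `ρ h * toF 𝔮 E D = toF 𝔮 E N`. -/
def StmtRsR : Prop :=
  ∀ (K : Type) [Field K] (n : ℕ) (𝔮 𝔭 : Ideal (Pl n K)) [𝔮.IsPrime] [𝔭.IsPrime], 𝔮 ≤ 𝔭 →
    ∀ (E : Type) [Field E] [Algebra (CR 𝔮) E] [IsFractionRing (CR 𝔮) E] [Algebra K E] [IsScalarTower K (CR 𝔮) E]
      (L : Type) [Field L] [Algebra (CR 𝔭) L] [IsFractionRing (CR 𝔭) L] [Algebra K L] [IsScalarTower K (CR 𝔭) L]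
      (σ' : RF n K →ₐ[K] RF n K) (ρ : E →ₐ[K] E) (ρb : L →ₐ[K] L), Rst σ' 𝔮 E ρ → Rst σ' 𝔭 L ρb →
      ∀ (m : ℕ) (h : E) (u : L), RsE 𝔮 𝔭 E L h u → RsE 𝔮 𝔭 E L ((ρ ^ m) h) ((ρb ^ m) u)

/-- (E3) The local ring along `Z` and its completion. PROOF (uses `StmtRsE`, `StmtA2` of `Lib/MP_16285c_agN/SpecR.lean`, proved as `tA2`). `𝔮 = span {P}`, `O` = the set of the regular `h`, a subalgebra; `res` from the uniqueness of residues. `Φ`: apply `StmtA2` over the field `L`, with `n + 1`, `c = 1`, `β = fun _ => 0`, `x i = toF 𝔭 L (X i)`,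
`P' = C (toF 𝔭 L (pderiv 0 P))⁻¹ * map (algebraMap K L) P`: `eval x (map _ G) = toF 𝔭 L G`, so `eval x P' = 0`, `grad P' x 0 = 1`. This gives `γ : Pl (n+1) L →ₐ[L] PowerSeries (MvPolynomial (Fin (n+1)) L)`. Compose with `PowerSeries.map` of the `L`-homomorphism `MvPolynomial (Fin (n+1)) L → MvPolynomial (Fin n) L`, `X 0 ↦ 0`, `X j.succ ↦ 0` for `j ∈ α`, `X j.succ ↦ X j` for `j ∉ α`, and with
`map (algebraMap K L)`: `Φ₀ : Pl (n+1) K →+* PowerSeries (MvPolynomial (Fin n) L)`, `Φ₀ P = 0`, `constantCoeff (Φ₀ G) = C (toF 𝔭 L G)`, `Φ₀ (X j.succ)` as required. If `B ∉ 𝔭` then `Φ₀ B` is a unit (`PowerSeries.isUnit_iff_constantCoeff`, `C` of a nonzero constant is a unit). For `h = A / B` put `Φ h = Φ₀ A * (Φ₀ B)⁻¹` (well defined: `A * B' - A' * B ∈ 𝔮` is killed by `Φ₀`);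
it is a ring homomorphism. (Or: `O` is a localisation of `CR 𝔮`, `IsLocalization.lift`.) -/
def StmtLocO : Prop :=
  ∀ (K : Type) [Field K] (n : ℕ) (P : Pl (n + 1) K) (𝔭 : Ideal (Pl (n + 1) K)) [(Ideal.span {P}).IsPrime] [𝔭.IsPrime], P ∈ 𝔭 →
    MvPolynomial.pderiv 0 P ∉ 𝔭 →
    ∀ (E : Type) [Field E] [Algebra (CR (Ideal.span {P})) E] [IsFractionRing (CR (Ideal.span {P})) E] [Algebra K E]
      [IsScalarTower K (CR (Ideal.span {P})) E]
      (L : Type) [Field L] [Algebra (CR 𝔭) L] [IsFractionRing (CR 𝔭) L] [Algebra K L] [IsScalarTower K (CR 𝔭) L]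
      (α : Finset (Fin n)),
    ∃ (O : Subalgebra K E) (res : O →ₐ[K] L) (Φ : O →+* PowerSeries (MvPolynomial (Fin n) L)),
      (∀ h : E, h ∈ O ↔ ∃ u : L, RsE (Ideal.span {P}) 𝔭 E L h u) ∧
      (∀ h : O, RsE (Ideal.span {P}) 𝔭 E L (h : E) (res h)) ∧
      (∀ h : O, PowerSeries.constantCoeff (Φ h) = MvPolynomial.C (res h)) ∧
      (∀ c : K, Φ (algebraMap K O c) = PowerSeries.C (MvPolynomial.C (algebraMap K L c))) ∧
      ∀ h : O, ∀ j : Fin n, (h : E) = toF (Ideal.span {P}) E (MvPolynomial.X j.succ) →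
        (j ∈ α → Φ h = PowerSeries.C (MvPolynomial.C (toF 𝔭 L (MvPolynomial.X j.succ)))) ∧
        (j ∉ α → Φ h = PowerSeries.C (MvPolynomial.C (toF 𝔭 L (MvPolynomial.X j.succ))) +
          PowerSeries.C (MvPolynomial.X j) * PowerSeries.X)

/-! ## Lowest order terms -/

/-- (E4) Lowest order terms. PROOF. Let `k₀ = ∑ j, w j * b j` (minimal on `S`). Apply `Φ` and take the coefficient of `X ^ k₀`. For `b' ∈ S`, `k' = ∑ j, w j * b' j ≥ k₀`, `Φ (∏ j, G j ^ b' j) = PowerSeries.C (∏ j, X j ^ (w j * b' j)) * PowerSeries.X ^ k' * ∏ j, U' j ^ b' j` (for `j ∈ α` the exponent `b' j` is `0`; use `U' j = 1`, or `Finset.prod_congr`). So the coefficient of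
`X ^ k₀` of the term of `b'` is `0` if `k' > k₀`, and `(∏ j, X j ^ (w j * b' j)) * C (∏ j ∉ α, v j ^ b' j * res (q b'))` if `k' = k₀` (`PowerSeries.coeff_C_mul`, `PowerSeries.coeff_X_pow_mul'`). In `MvPolynomial (Fin n) L` take the coefficient of the monomial `j ↦ w j * b j`: the exponents `j ↦ w j * b' j` are different for different `b' ∈ S` (`b' j = 0` on `α`, `w j ≥ 1` off `α`), so
`(∏ j ∉ α, v j ^ b j) * res (q b) = 0`, and `v j ≠ 0`. -/
def StmtLowA : Prop :=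
  ∀ (L O : Type) [Field L] [CommRing O] (n : ℕ) (Φ : O →+* PowerSeries (MvPolynomial (Fin n) L)) (res : O → L),
    (∀ h, PowerSeries.constantCoeff (Φ h) = MvPolynomial.C (res h)) →
    ∀ (α : Finset (Fin n)) (G : Fin n → O) (w : Fin n → ℕ) (U : Fin n → PowerSeries (MvPolynomial (Fin n) L))
      (v : Fin n → L),
      (∀ j, j ∉ α → 1 ≤ w j ∧ v j ≠ 0 ∧ PowerSeries.constantCoeff (U j) = MvPolynomial.C (v j) ∧
        Φ (G j) = PowerSeries.C (MvPolynomial.X j ^ w j) * PowerSeries.X ^ w j * U j) →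
      ∀ (S : Finset (Fin n → ℕ)) (q : (Fin n → ℕ) → O), (∀ b ∈ S, ∀ a ∈ α, b a = 0) →
        ∑ b ∈ S, (∏ j, G j ^ b j) * q b = 0 →
        ∀ b ∈ S, (∀ b' ∈ S, ∑ j, w j * b j ≤ ∑ j, w j * b' j) → res (q b) = 0

/-- (E5) Expansion of a relation. PROOF. As in `StmtLow1` (`Lib/MP_16285c_agN/Degr/Low1.lean`): let `f : Polynomial L` be the image of `F` under `X a ↦ C (x a)` (`a ≠ j`), `X j ↦ C (x j) + Polynomial.X`. `f ≠ 0` (otherwise all coefficients of `F` with respect to `X j`, which are polynomials in the `X a`, `a ∈ α`, vanish at the algebraically independent `x a`, so `F = 0`), `f.coeff 0 = aeval x F = 0`, so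
`f = Polynomial.X ^ w * h`, `w ≥ 1`, `v = h.coeff 0 ≠ 0`. For `y` as given `eval₂ _ y F = f` evaluated at `t = PowerSeries.C (X j) * PowerSeries.X` (only the variables in `insert j α` occur: `MvPolynomial.eval₂Hom_congr'`, `hom_congr_vars`; `Polynomial.eval₂ (PowerSeries.C ∘ MvPolynomial.C)`), which is `t ^ w * h(t)`; `U = h(t)`, `constantCoeff U = C (h.coeff 0)`. -/
def StmtLowF : Prop :=
  ∀ (K L : Type) [Field K] [Field L] [Algebra K L] (n : ℕ) (α : Finset (Fin n)) (x : Fin n → L),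
    AlgebraicIndependent K (fun a : α => x (a : Fin n)) →
    ∀ (F : MvPolynomial (Fin n) K) (j : Fin n), j ∉ α → F ≠ 0 → MvPolynomial.aeval x F = 0 → F.vars ⊆ insert j α →
    ∃ (w : ℕ) (U : PowerSeries (MvPolynomial (Fin n) L)) (v : L), 1 ≤ w ∧ v ≠ 0 ∧
      PowerSeries.constantCoeff U = MvPolynomial.C v ∧
      ∀ y : Fin n → PowerSeries (MvPolynomial (Fin n) L),
        (∀ a ∈ α, y a = PowerSeries.C (MvPolynomial.C (x a))) →
        y j = PowerSeries.C (MvPolynomial.C (x j)) + PowerSeries.C (MvPolynomial.X j) * PowerSeries.X →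
        MvPolynomial.eval₂ ((PowerSeries.C : MvPolynomial (Fin n) L →+* PowerSeries (MvPolynomial (Fin n) L)).comp
          ((MvPolynomial.C : L →+* MvPolynomial (Fin n) L).comp (algebraMap K L))) y F =
          PowerSeries.C (MvPolynomial.X j ^ w) * PowerSeries.X ^ w * U

/-- (E6) Independence over `κ`. PROOF (uses `StmtLowA`; compare `Lib/MP_16285c_agN/Degr/Low2.lean`). Let `∑ (b, i) ∈ S × univ, c b i * (G^b * θ i) = 0` in `E` with `c b i ∈ κ` not all `0` (`S` a finite set of exponents vanishing on `α`). `c b i ∈ O` with residue `ι (c b i)`. Let `S' = {b ∈ S | ∃ i, c b i ≠ 0}` (the other terms vanish), nonempty, and `b ∈ S'` with minimal `∑ j, w j * b j`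
(`Finset.exists_min_image`). In `O`: `∑ b' ∈ S', G^b' * q b' = 0`, `q b' = ∑ i, c b' i * θ i` (the inclusion `O → E` is injective). `StmtLowA`: `0 = res (q b) = ∑ i, ι (c b i) * res (θ i)`, so `ι (c b i) = 0`, `c b i = 0` for all `i`: a contradiction. -/
def StmtLowB : Prop :=
  ∀ (K L E : Type) [Field K] [Field L] [Field E] [Algebra K L] [Algebra K E] (n : ℕ) (O : Subalgebra K E)
    (res : O →ₐ[K] L) (Φ : O →+* PowerSeries (MvPolynomial (Fin n) L)),
    (∀ h, PowerSeries.constantCoeff (Φ h) = MvPolynomial.C (res h)) →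
    ∀ (α : Finset (Fin n)) (G : Fin n → O) (w : Fin n → ℕ) (U : Fin n → PowerSeries (MvPolynomial (Fin n) L))
      (v : Fin n → L),
      (∀ j, j ∉ α → 1 ≤ w j ∧ v j ≠ 0 ∧ PowerSeries.constantCoeff (U j) = MvPolynomial.C (v j) ∧
        Φ (G j) = PowerSeries.C (MvPolynomial.X j ^ w j) * PowerSeries.X ^ w j * U j) →
      ∀ (κ : IntermediateField K E) (ι : κ →ₐ[K] L), (∀ c : κ, ∃ h : O, (h : E) = c ∧ res h = ι c) →
      ∀ (δ : ℕ) (θ : Fin δ → O), LinearIndependent ι.fieldRange (fun i => res (θ i)) →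
        LinearIndependent κ (fun t : {b : Fin n → ℕ // ∀ a ∈ α, b a = 0} × Fin δ =>
          (((∏ j, G j ^ (t.1 : Fin n → ℕ) j) * θ t.2 : O) : E))

/-- (E7) Counting. PROOF (uses `StmtVd` (1)). As `Lib/MP_16285c_agN/Degr/Low3.lean`: the elements with `∑ b j ≤ N` are values at `y` of polynomials of total degree `≤ D N + E₀`, so they lie in `Vd κ y (D N + E₀)`; there are `δ * cnt (n - α.card) N` of them. -/
def StmtLowC : Prop :=
  ∀ (K E : Type) [Field K] [Field E] [Algebra K E] (n m : ℕ) (y : Fin m → E) (κ : IntermediateField K E)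
    (α : Finset (Fin n)) (δ : ℕ) (G : Fin n → MvPolynomial (Fin m) K) (θ : Fin δ → MvPolynomial (Fin m) K),
    LinearIndependent κ (fun t : {b : Fin n → ℕ // ∀ a ∈ α, b a = 0} × Fin δ =>
      MvPolynomial.aeval y ((∏ j, G j ^ (t.1 : Fin n → ℕ) j) * θ t.2)) →
    ∀ D E₀ : ℕ, (∀ j, j ∉ α → (G j).totalDegree ≤ D) → (∀ i, (θ i).totalDegree ≤ E₀) →
      ∀ N : ℕ, δ * cnt (n - α.card) N ≤ Module.finrank κ (Vd κ y (D * N + E₀))

/-! ## Transcendence bases, fields -/

/-- (E8) Transcendence bases. PROOF. (1) `exists_isTranscendenceBasis_subset`-like lemmas of Mathlib (a maximal algebraically independent subset of a set over which `L` is algebraic is a transcendence basis; compare `tRk1` in `Lib/MP_16285c_agN/Rk1.lean`); choose indices: injective on the basis. (2) the cardinality of a transcendence basis is `trdeg K L`, `= trdeg K (CR 𝔭)` since `L` is algebraic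
over `CR 𝔭` (`trdeg_add_eq` and `trdeg = 0` as in `SurfM.trdeg_eq` of `Lib/MP_16285c_agS/G/Surf.lean`); `rk 𝔭 = toNat (trdeg K (CR 𝔭))`. (3) `toF 𝔭 L (X 0)` is integral over the image of the `X j.succ` since `P ∈ 𝔭` is monic in `X 0` (`finSuccEquiv`), and `L` is generated by the `toF 𝔭 L (X i)`. (4) `CR 𝔮` for `𝔮 = span {P}`: by (3) (with `𝔭 = 𝔮`, `L = E`) `E` is algebraic over
`K(x_1, …, x_n)`, `x_j = toF 𝔮 E (X j.succ)`, and the `x_j` are algebraically independent: a multiple of `P` in which `X 0` does not occur is `0` (`P` is monic in `X 0`, not a unit because `span {P}` is prime, so of positive degree in `X 0`). -/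
def StmtTB : Prop :=
  (∀ (K L : Type) [Field K] [Field L] [Algebra K L] (m : ℕ) (u : Fin m → L),
    Algebra.IsAlgebraic (IntermediateField.adjoin K (Set.range u)) L →
    ∃ α : Finset (Fin m), IsTranscendenceBasis K (fun a : α => u (a : Fin m))) ∧
  (∀ (K : Type) [Field K] (n : ℕ) (𝔭 : Ideal (Pl n K)) [𝔭.IsPrime] (L : Type) [Field L] [Algebra (CR 𝔭) L]
    [IsFractionRing (CR 𝔭) L] [Algebra K L] [IsScalarTower K (CR 𝔭) L] (ι : Type) [Fintype ι] (u : ι → L),
    IsTranscendenceBasis K u → Fintype.card ι = rk 𝔭) ∧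
  (∀ (K : Type) [Field K] (n : ℕ) (P : Pl (n + 1) K) (𝔭 : Ideal (Pl (n + 1) K)) [𝔭.IsPrime], MonZ P → P ∈ 𝔭 →
    ∀ (L : Type) [Field L] [Algebra (CR 𝔭) L] [IsFractionRing (CR 𝔭) L] [Algebra K L] [IsScalarTower K (CR 𝔭) L],
    Algebra.IsAlgebraic (IntermediateField.adjoin K
      (Set.range fun j : Fin n => toF 𝔭 L (MvPolynomial.X j.succ))) L) ∧
  ∀ (K : Type) [Field K] (n : ℕ) (P : Pl (n + 1) K) [(Ideal.span {P}).IsPrime], MonZ P →
    ∀ (E : Type) [Field E] [Algebra (CR (Ideal.span {P})) E] [IsFractionRing (CR (Ideal.span {P})) E] [Algebra K E]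
      [IsScalarTower K (CR (Ideal.span {P})) E], Algebra.trdeg K E = n

/-- (E9) Relations. PROOF. Edit `Lib/MP_16285c_agN/Degr/Rel.lean` (`StmtRel`). -/
def StmtRelX : Prop :=
  ∀ (K L : Type) [Field K] [Field L] [Algebra K L] (n : ℕ) (x : Fin n → L) (α : Finset (Fin n)),
    IsTranscendenceBasis K (fun a : α => x (a : Fin n)) →
    ∃ F : Fin n → MvPolynomial (Fin n) K, ∀ j, j ∉ α → F j ≠ 0 ∧ MvPolynomial.aeval x (F j) = 0 ∧
      (F j).vars ⊆ insert j α

/-- (E10) The residue map of the field `κ = K(ρ(y_a) : a ∈ α)`. PROOF (uses `StmtRsE`). Edit `Lib/MP_16285c_agN/Degr/Res.lean` (`StmtRes`), with `RsE` in place of `Rsd`: `RsE (ρ (y a)) (ρb (u a))`; the `ρb (u a)`, `a ∈ α`, are algebraically independent, so every quotient of polynomials in the `ρ (y a)` has a residue, unique; `ι` is a homomorphism. `ι.fieldRange = K(ρb (u a) : a ∈ α)`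
is the image under `ρb` of `K(u a : a ∈ α)`; `L` is algebraic over the latter and generated over `K` by the finitely many `u i`, so finite over it; so `ρb.fieldRange` is finite over `ι.fieldRange`, and `L` over `ρb.fieldRange` (hypothesis); `[L : ρb.fieldRange] ≤ [L : ι.fieldRange]`. -/
def StmtResX : Prop :=
  ∀ (K : Type) [Field K] (n : ℕ) (𝔮 𝔭 : Ideal (Pl n K)) [𝔮.IsPrime] [𝔭.IsPrime], 𝔮 ≤ 𝔭 →
    ∀ (E : Type) [Field E] [Algebra (CR 𝔮) E] [IsFractionRing (CR 𝔮) E] [Algebra K E] [IsScalarTower K (CR 𝔮) E]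
      (L : Type) [Field L] [Algebra (CR 𝔭) L] [IsFractionRing (CR 𝔭) L] [Algebra K L] [IsScalarTower K (CR 𝔭) L]
      (m : ℕ) (y : Fin m → E) (u : Fin m → L), (∀ i, RsE 𝔮 𝔭 E L (y i) (u i)) →
      IntermediateField.adjoin K (Set.range u) = ⊤ → ∀ α : Finset (Fin m),
      IsTranscendenceBasis K (fun a : α => u (a : Fin m)) →
      ∀ (ρ : E →ₐ[K] E) (ρb : L →ₐ[K] L), (∀ h v, RsE 𝔮 𝔭 E L h v → RsE 𝔮 𝔭 E L (ρ h) (ρb v)) →
      Module.Finite ρb.fieldRange L →
      ∃ ι : IntermediateField.adjoin K (Set.range fun a : α => ρ (y (a : Fin m))) →ₐ[K] L,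
        (∀ c : IntermediateField.adjoin K (Set.range fun a : α => ρ (y (a : Fin m))),
          RsE 𝔮 𝔭 E L (c : E) (ι c)) ∧ Module.Finite ι.fieldRange L ∧
        Module.finrank ρb.fieldRange L ≤ Module.finrank ι.fieldRange L

/-- (E11) PROOF. Edit `Lib/MP_16285c_agN/Degr/Theta.lean`: the `κb`-span of the values `aeval u G` is a `κb`-subalgebra of the finite extension `L / κb`, so a field; it contains `K` and the `u i`, so it is `L`. -/
def StmtThetaX : Prop :=
  ∀ (K L : Type) [Field K] [Field L] [Algebra K L] (m : ℕ) (u : Fin m → L), IntermediateField.adjoin K (Set.range u) = ⊤ →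
    ∀ κb : IntermediateField K L, Module.Finite κb L →
    ∃ θ : Fin (Module.finrank κb L) → MvPolynomial (Fin m) K,
      LinearIndependent κb (fun i => MvPolynomial.aeval u (θ i))

/-- (E12) PROOF. Edit `Lib/MP_16285c_agN/Degr/Trd.lean`. -/
def StmtTrdX : Prop :=
  ∀ (K E : Type) [Field K] [Field E] [Algebra K E] (n : ℕ), Algebra.trdeg K E = n →
    ∀ (ι : Type) [Fintype ι] (v : ι → E) (s : ℕ) (l : Fin s → E), AlgebraicIndependent K v →
    AlgebraicIndependent (IntermediateField.adjoin K (Set.range v)) l →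
    Module.Finite (IntermediateField.adjoin (IntermediateField.adjoin K (Set.range v)) (Set.range l)) E →
    Fintype.card ι + s = n

/-- (E13) Bookkeeping. PROOF. Edit `Lib/MP_16285c_agN/Degr/Bk.lean`. -/
def StmtBkX : Prop :=
  ∀ (K E : Type) [Field K] [Field E] [Algebra K E] (n m : ℕ) (α : Finset (Fin m)) (y g : Fin m → E)
    (A : Fin (n - α.card) → Fin m → K),
    (Module.finrank (IntermediateField.adjoin
      (IntermediateField.adjoin K (Set.range fun a : α => g (a : Fin m)))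
      (Set.range (lfX A y))) E : ENNReal) ≤ degrX K n α.card y g

/-- (E14) The degree on a subvariety. `x j = toF 𝔮 E (X j.succ)`. PROOF (uses `StmtRsE`, `StmtLocO`, `StmtLowF`, `StmtLowB`, `StmtLowC`, `StmtTB`, `StmtRelX`, `StmtResX`, `StmtThetaX`, `StmtTrdX`, `StmtBkX`, `StmtHat`, `StmtNum`, `StmtNN`, `StmtUpF`, `StmtUp`; pattern: `Lib/MP_16285c_agN/Degr/DegrP.lean`). `𝔮 = span {P} ≤ 𝔭`.
(a) `α' : Finset (Fin n)` with the residues `x̄ a = toF 𝔭 L (X a.succ)`, `a ∈ α'`, a transcendence basis of `L` (`StmtTB` (3), (1)); `α : Finset (Fin m)` with the `u a`, `a ∈ α`, a transcendence basis (`StmtTB` (1)); both have `rk 𝔭` elements (`StmtTB` (2)). `F j` (`j ∉ α'`) from `StmtRelX` for `x̄`, `N j = (F j).totalDegree`; `w j, U j, v j` from `StmtLowF`. `O, res, Φ` from `StmtLocO` for `α'`.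
(b) `G j = hatX d Z N_j (F j)`, a polynomial in `m` variables: `aeval y (G j) = (aeval y d) ^ N j * aeval x (F j)` in `E` (`StmtHat` (1) for `θ = aeval y`). The `y i` and `x j` are in `O` (`RsE`), `y' i, x' j : O`; `G' j = aeval y' (G j) = (aeval y' d) ^ N j * aeval x' (F j)`, `res (aeval y' A) = aeval u A`. `Φ (aeval x' (F j)) = eval₂ _ (Φ ∘ x') (F j) = C (X j ^ w j) * X ^ w j * U j`;
`Φ (aeval y' d)` has the constant coefficient `C (aeval u d)`, `aeval u d ≠ 0`. So `Φ (G' j) = C (X j ^ w j) * X ^ w j * (U j * Φ (aeval y' d) ^ N j)` as required in `StmtLowB`. (c) Given `ρ, ρb`: `κ`, `ι` from `StmtResX` (`Module.Finite ρb.fieldRange L` by `StmtG1` (1)), `θ` from `StmtThetaX` for `ι.fieldRange`, `θ' i = aeval y' (θ i)`. `StmtLowB`, `StmtLowC` (for `G`, `θ`, `α'`;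
`((∏ G'^b) θ' : E) = aeval y ((∏ G^b) θ)`): `δ * cnt (n - r) N ≤ dim Vd κ y (D N + E₀)`, `D = ∑ j, (G j).totalDegree`, `r = rk 𝔭`. (d) `StmtNN` for `K, κ, E, y`: `s, A, W`, `StmtUpF`, `StmtUp` (`adjoin κ (range y) = ⊤`). `StmtTrdX` for `v a = ρ (y a)`, `a : α` (algebraically independent because their residues `ρb (u a)` are: a relation has the residue `0`; or `ρ`, and `y a` itself): `r + s = n`.
`StmtNum`: `δ ≤ e * (D + 1) ^ (n - r)`, `e ≤ degrX K n r y (ρ ∘ y)` by `StmtBkX`. `C = (D + 1) ^ (n - r)`. -/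
def StmtDegrPX : Prop :=
  ∀ (K : Type) [Field K] [CharZero K] (n : ℕ) (P : Pl (n + 1) K) (𝔭 : Ideal (Pl (n + 1) K)) [(Ideal.span {P}).IsPrime] [𝔭.IsPrime],
    MonZ P → P ∈ 𝔭 → MvPolynomial.pderiv 0 P ∉ 𝔭 →
    ∀ (E : Type) [Field E] [Algebra (CR (Ideal.span {P})) E] [IsFractionRing (CR (Ideal.span {P})) E] [Algebra K E]
      [IsScalarTower K (CR (Ideal.span {P})) E]
      (L : Type) [Field L] [Algebra (CR 𝔭) L] [IsFractionRing (CR 𝔭) L] [Algebra K L] [IsScalarTower K (CR 𝔭) L]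
      (m : ℕ) (y : Fin m → E) (u : Fin m → L), IntermediateField.adjoin K (Set.range y) = ⊤ →
      IntermediateField.adjoin K (Set.range u) = ⊤ → (∀ i, RsE (Ideal.span {P}) 𝔭 E L (y i) (u i)) →
      ∀ (d : MvPolynomial (Fin m) K) (Z : Fin n → MvPolynomial (Fin m) K), MvPolynomial.aeval u d ≠ 0 →
      (∀ j : Fin n, toF (Ideal.span {P}) E (MvPolynomial.X j.succ) * MvPolynomial.aeval y d =
        MvPolynomial.aeval y (Z j)) →
      ∃ C : ℕ, ∀ (ρ : E →ₐ[K] E) (ρb : L →ₐ[K] L),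
        (∀ h v, RsE (Ideal.span {P}) 𝔭 E L h v → RsE (Ideal.span {P}) 𝔭 E L (ρ h) (ρb v)) →
        (Module.finrank ρb.fieldRange L : ENNReal) ≤ C * degrX K n (rk 𝔭) y (fun i => ρ (y i))

/-! ## Base change from `K` to `k` -/

/-- (E15) The base change and linear disjointness. PROOF. `φ = map (algebraMap K k)`. `aeval ξ (φ G) = 0 ↔ φ P ∣ φ G ↔ P ∣ G` (`GenN.ker`; the second: division with remainder by the monic `finSuccEquiv P` is compatible with `φ`, `Polynomial.map_dvd_map`-type, `finSuccEquiv` and `map`: `map_up` in `Lib/MP_16285c_ag/Base.lean`, or `InvDX`/`StmtInvD`). So `G ↦ aeval ξ (φ G)` factors through an injective homomorphism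
of `CR (span {P})`, which extends to `E` (`IsFractionRing.lift`, `IsFractionRing.liftAlgHom`): `β`. Disjointness: let `D ∉ span {P}` be a common denominator: `h t * toF D = toF (H t)`. `∑ t, b t * (φ (H t))(ξ) = 0`, so `φ P ∣ ∑ t, C (b t) * φ (H t)`. Let `R t` be the remainder of `H t` modulo the monic `P` (in `X 0`); `∑ t, C (b t) * φ (R t)` is divisible by `φ P` and of smaller degree in `X 0`,
so it is `0`; compare the coefficients of each monomial: `∑ t, b t * algebraMap (coeff) = 0` with coefficients in `K`, so all are `0`, `R t = 0`, `P ∣ H t`, `h t = 0`. -/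
def StmtBet : Prop :=
  ∀ (K k : Type) [Field K] [Field k] [Algebra K k] (n : ℕ) (P : Pl (n + 1) K) [(Ideal.span {P}).IsPrime], MonZ P →
    ∀ (E : Type) [Field E] [Algebra (CR (Ideal.span {P})) E] [IsFractionRing (CR (Ideal.span {P})) E] [Algebra K E]
      [IsScalarTower K (CR (Ideal.span {P})) E] (E' : Type) [Field E'] [Algebra k E'] [Algebra K E']
      [IsScalarTower K k E'] (ξ : Fin (n + 1) → E'), GenN (MvPolynomial.map (algebraMap K k) P) ξ →
    ∃ β : E →ₐ[K] E', (∀ G, β (toF (Ideal.span {P}) E G) = MvPolynomial.aeval ξ (MvPolynomial.map (algebraMap K k) G)) ∧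
      ∀ (s : ℕ) (b : Fin s → k), LinearIndependent K b → ∀ h : Fin s → E,
        ∑ t, algebraMap k E' (b t) * β (h t) = 0 → ∀ t, h t = 0

/-- (E16) The maps on `E` and `E'`. PROOF. Say that `g : RF (n+1) K` has the value `v : E'` if there are `N, D` with `P ∤ D`, `g * fr D = fr N`, `v * D(ξ) = N(ξ)`, where `G(ξ) = aeval ξ (map G) = β (toF G)`; `D(ξ) ≠ 0`. Values are unique, compatible with `+`, `*`, constants and inverses (if `v ≠ 0`). CLAIM: if `g` has the value `v` then `σ g` has the value `φ v`. For `g = fr G`: `σ (fr (X i)) = fr (num i) / fr (den i)`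
(`Of`) has the value `fvn _ ξ i = φ (ξ i)` (`den i (ξ) ≠ 0`), so `σ (fr G)` (a polynomial in these with coefficients in `K`) has the value `G(φ ξ) = φ (G(ξ))`. For `g = fr N / fr D`: `σ (fr D)` has the value `φ (D(ξ)) ≠ 0`. Induction: `(σ ^ M) g` has the value `(φ ^ M) v`. Now let `h = toF N / toF D`, `g = fr N / fr D`: `Rsd _ E g h`, so `Rsd _ E ((σ ^ M) g) (ρ h)`: `N', D'` with `(σ ^ M) g * fr D' = fr N'`,
`ρ h * toF D' = toF N'`; apply `β`: `(σ ^ M) g` has the value `β (ρ h)`. It also has the value `(φ ^ M) (β h)`. -/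
def StmtCmpB : Prop :=
  ∀ (K k : Type) [Field K] [Field k] [Algebra K k] (n : ℕ) (P : Pl (n + 1) K) [(Ideal.span {P}).IsPrime],
    ∀ (E : Type) [Field E] [Algebra (CR (Ideal.span {P})) E] [IsFractionRing (CR (Ideal.span {P})) E] [Algebra K E]
      [IsScalarTower K (CR (Ideal.span {P})) E] (E' : Type) [Field E'] [Algebra k E'] [Algebra K E']
      [IsScalarTower K k E'] (ξ : Fin (n + 1) → E') (β : E →ₐ[K] E'),
      (∀ G, β (toF (Ideal.span {P}) E G) = MvPolynomial.aeval ξ (MvPolynomial.map (algebraMap K k) G)) →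
    ∀ (f : RM K (n + 1)) (σ : RF (n + 1) K →ₐ[K] RF (n + 1) K) (φ : E' →ₐ[k] E') (M : ℕ) (ρ : E →ₐ[K] E), Of f σ →
      (∀ i, MvPolynomial.aeval ξ ((f.map (algebraMap K k)).den i) ≠ 0) →
      (∀ i, fvn (f.map (algebraMap K k)) ξ i = φ (ξ i)) → Rst (σ ^ M) (Ideal.span {P}) E ρ →
      ∀ h : E, β (ρ h) = (φ ^ M) (β h)

/-- (E17) The degrees over `K` are at most those over `k`. PROOF. Edit `Lib/MP_16285c_agN/Degr/DegrDesc.lean` (`StmtDegrDesc`), with `β` in place of `bc`, and the hypothesis in place of the CLAIM of (ii) there. For `A, B` over `K` and `A', B'` their images over `k`: `κ = fldX A B y g`, `κ' = fldX A' B' (β ∘ y) (β ∘ g) ⊇ β κ`. If `[E : κ] = 0` nothing is to be shown; otherwise `d = [E : κ]` is finite.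
(i) `E'` is finite over `κ'`: it is generated over `k` by the `β (y i)`, which are algebraic over `κ'`. (ii) a basis `w_1, …, w_d` of `E` over `κ` stays independent over `κ'`. -/
def StmtDescX : Prop :=
  ∀ (K k : Type) [Field K] [Field k] [Algebra K k] (E E' : Type) [Field E] [Field E'] [Algebra K E] [Algebra k E']
    [Algebra K E'] [IsScalarTower K k E'] (β : E →ₐ[K] E'),
    (∀ (s : ℕ) (b : Fin s → k), LinearIndependent K b → ∀ h : Fin s → E,
      ∑ t, algebraMap k E' (b t) * β (h t) = 0 → ∀ t, h t = 0) →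
    ∀ (m : ℕ) (y g : Fin m → E), IntermediateField.adjoin K (Set.range y) = ⊤ →
      IntermediateField.adjoin k (Set.range fun i => β (y i)) = ⊤ →
      ∀ n r : ℕ, degrX K n r y g ≤ degrX k n r (fun i => β (y i)) (fun i => β (g i))

/-- (E18) The topological degrees. PROOF. Let `w_1, …, w_d` be a basis of `E` over `ρ.fieldRange`. Let `V ⊆ E'` be the `φ.fieldRange`-span of the `β (w_i)`. `β (w_i) * β (w_j) = β (∑ l, ρ (c_l) * w_l) = ∑ l, φ (β (c_l)) * β (w_l) ∈ V`; in the same way `β E ⊆ V`, `1 ∈ V`, and `k = φ k ⊆ φ.fieldRange`, so `V` is a `φ.fieldRange`-subalgebra of `E'`, finite dimensional, a domain, so a field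
(`Subalgebra.isField_of_algebraic` or the like); it contains `k` and all `β (y i)`, so it is `E'`. So `[E' : φ.fieldRange] ≤ d`. -/
def StmtTpX : Prop :=
  ∀ (K k : Type) [Field K] [Field k] [Algebra K k] (E E' : Type) [Field E] [Field E'] [Algebra K E] [Algebra k E']
    [Algebra K E'] [IsScalarTower K k E'] (β : E →ₐ[K] E') (ρ : E →ₐ[K] E) (φ : E' →ₐ[k] E'),
    (∀ h, β (ρ h) = φ (β h)) → Module.Finite ρ.fieldRange E →
    ∀ (m : ℕ) (y : Fin m → E), IntermediateField.adjoin k (Set.range fun i => β (y i)) = ⊤ →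
      Module.finrank φ.fieldRange E' ≤ Module.finrank ρ.fieldRange E

/-- (E19) The coordinates `y` over `K`. PROOF (uses `StmtRsE`, `StmtHat`). `y i = toF 𝔮 E (Y i) / toF 𝔮 E c` (`toF 𝔮 E c ≠ 0`: its image under `β` is `c(ξ) ≠ 0`), so `β (y i) = y' i`. `toF 𝔮 E (X j) * aeval y d = aeval y (Z j)`: apply the injective `β` (`β (aeval y A) = aeval y' (map A)`). `E` is generated by the `toF 𝔮 E (X j)`, and `aeval y d ≠ 0`, so `adjoin K (range y) = ⊤`. For `𝔭`: `c ∉ 𝔭` and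
`hatX c Y _ d ∉ 𝔭` (their product is not in `𝔭`); `u i = toF 𝔭 L (Y i) / toF 𝔭 L c`, `RsE (y i) (u i)` (`A = Y i`, `B = c`). `toF 𝔭 L (hatX c Y N d) = (toF 𝔭 L c) ^ N * aeval u d` (`StmtHat` (1), `toF` as an algebra homomorphism), so `aeval u d ≠ 0`. `toF 𝔭 L (X j) * aeval u d = aeval u (Z j)` by uniqueness of residues (`RsE` of polynomials in the `y i`: induction), so `adjoin K (range u) = ⊤`. -/
def StmtYX : Prop :=
  ∀ (K k : Type) [Field K] [Field k] [Algebra K k] (n : ℕ) (P : Pl (n + 1) K) [(Ideal.span {P}).IsPrime],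
    ∀ (E : Type) [Field E] [Algebra (CR (Ideal.span {P})) E] [IsFractionRing (CR (Ideal.span {P})) E] [Algebra K E]
      [IsScalarTower K (CR (Ideal.span {P})) E] (E' : Type) [Field E'] [Algebra k E'] [Algebra K E']
      [IsScalarTower K k E'] (ξ : Fin (n + 1) → E') (β : E →ₐ[K] E'),
      (∀ G, β (toF (Ideal.span {P}) E G) = MvPolynomial.aeval ξ (MvPolynomial.map (algebraMap K k) G)) →
    ∀ (m : ℕ) (y' : Fin m → E') (c : Pl (n + 1) K) (Y : Fin m → Pl (n + 1) K) (d : MvPolynomial (Fin m) K)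
      (Z : Fin (n + 1) → MvPolynomial (Fin m) K),
      MvPolynomial.aeval ξ (MvPolynomial.map (algebraMap K k) c) ≠ 0 →
      (∀ i, y' i * MvPolynomial.aeval ξ (MvPolynomial.map (algebraMap K k) c) =
        MvPolynomial.aeval ξ (MvPolynomial.map (algebraMap K k) (Y i))) →
      MvPolynomial.aeval y' (MvPolynomial.map (algebraMap K k) d) ≠ 0 →
      (∀ j, ξ j * MvPolynomial.aeval y' (MvPolynomial.map (algebraMap K k) d) =
        MvPolynomial.aeval y' (MvPolynomial.map (algebraMap K k) (Z j))) →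
      ∃ y : Fin m → E, (∀ i, β (y i) = y' i) ∧ IntermediateField.adjoin K (Set.range y) = ⊤ ∧
        (∀ j, toF (Ideal.span {P}) E (MvPolynomial.X j) * MvPolynomial.aeval y d = MvPolynomial.aeval y (Z j)) ∧
        ∀ (𝔭 : Ideal (Pl (n + 1) K)) [𝔭.IsPrime], P ∈ 𝔭 → c * hatX c Y d.totalDegree d ∉ 𝔭 →
          ∀ (L : Type) [Field L] [Algebra (CR 𝔭) L] [IsFractionRing (CR 𝔭) L] [Algebra K L] [IsScalarTower K (CR 𝔭) L],
          ∃ u : Fin m → L, IntermediateField.adjoin K (Set.range u) = ⊤ ∧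
            (∀ i, RsE (Ideal.span {P}) 𝔭 E L (y i) (u i)) ∧ MvPolynomial.aeval u d ≠ 0

/-- (E20) PROOF OF `StmtGroX` (uses `StmtRsR`, `StmtDegrPX`, `StmtBet`, `StmtCmpB`, `StmtDescX`, `StmtTpX`, `StmtYX`, `StmtHat` (2), `StmtG1`, `StmtReal2`; pattern: `Lib/MP_16285c_agN/Degr/NFD.lean`). `S₀` = all coefficients of `c`, `Y i`, `d`, `Z j` (`TopFinM.cf` and `desc_poly` in `Lib/MP_16285c_agS/Top/Fin.lean`). Let `K, PK, eK, fK, σK, M, E, ρ` be given; `cK, YK, dK, ZK` over `K`;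
`eK = cK * hatX cK YK dK.totalDegree dK` (`map` is injective; `StmtHat` (2), `totalDegree` of `dK` and `d` are equal). `Algebra K E'` := `Algebra.compHom`/`((algebraMap k E').comp (algebraMap K k)).toAlgebra` with its scalar tower. `MonZ PK` (`StmtInvD` (3)-like: leading coefficient and degree under the injective `map`). `β` from `StmtBet`, `StmtCmpB`: `β (ρ h) = (φ ^ M) (β h)`; `y` from `StmtYX`;
`adjoin k (range y') = ⊤` (`ξ j * d(y') = Z_j(y')`, `GenN.top`). `T ^ M = finrank (φ ^ M).fieldRange E' ≤ finrank ρ.fieldRange E` for `T = finrank φ.fieldRange E'` (`StmtG1` (b), `StmtTpX`). Let `𝔭, L, ρb` be as in `NoFullX`, `r = rk 𝔭`, and suppose `T_K := finrank ρ.fieldRange E ≤ Δ := finrank ρb.fieldRange L`. `u` from `StmtYX`, `C` from `StmtDegrPX`. For all `m`: `ρ ^ m, ρb ^ m` satisfy the hypothesis (`StmtRsR`), so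
`T ^ (M m) ≤ Δ ^ m = finrank (ρb ^ m).fieldRange L ≤ C * degrX K n r y (ρ ^ m y) ≤ C * degrX k n r y' ((φ ^ (M m)) y')` (`StmtDescX`; `β ((ρ ^ m) h) = (φ ^ (M m)) (β h)` by induction). `StmtReal2` for `d t = degrX k n r y' ((φ ^ t) y')`, `τ = T`, `M`, `C`: a contradiction. -/
def StmtGroX' : Prop := StmtGroX

end Pool.Agent.Lib.MP_16285c_agX
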