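import Pool.Agent.Lib.MP_16285c_agX.Gro.Spec
import Pool.Agent.Lib.MP_16285c_agN.Degr.Res

/-!
# (E10) The residue map of a subfield of the function field of the hypersurface
-/

set_option autoImplicit false

namespace Pool.Agent.Lib.MP_16285c_agX

open Pool.Agent.Lib.MP_16285c_ag Pool.Agent.Lib.MP_16285c_agN
open Pool.Agent.Lib.MP_16285c_agS (toF)

namespace GroResXM

theorem rse_aeval {K : Type} [Field K] {n : ℕ} {𝔮 𝔭 : Ideal (Pl n K)} {E L : Type} [Field E]
    [Algebra (CR 𝔮) E] [Field L] [Algebra (CR 𝔭) L] [Algebra K E] [Algebra K L]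
    (hc : ∀ c : K, RsE 𝔮 𝔭 E L (algebraMap K E c) (algebraMap K L c))
    (ha : ∀ h h' u u', RsE 𝔮 𝔭 E L h u → RsE 𝔮 𝔭 E L h' u' → RsE 𝔮 𝔭 E L (h + h') (u + u'))
    (hm : ∀ h h' u u', RsE 𝔮 𝔭 E L h u → RsE 𝔮 𝔭 E L h' u' → RsE 𝔮 𝔭 E L (h * h') (u * u'))
    {ι : Type} {y : ι → E} {z : ι → L} (h : ∀ i, RsE 𝔮 𝔭 E L (y i) (z i)) (P : MvPolynomial ι K) :
    RsE 𝔮 𝔭 E L (MvPolynomial.aeval y P) (MvPolynomial.aeval z P) := by
  induction P using MvPolynomial.induction_on with
  | C a =>
    rw [MvPolynomial.aeval_C, MvPolynomial.aeval_C]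
    exact hc a
  | add p q hp hq =>
    rw [map_add, map_add]
    exact ha _ _ _ _ hp hq
  | mul_X p i hp =>
    rw [map_mul, map_mul, MvPolynomial.aeval_X, MvPolynomial.aeval_X]
    exact hm _ _ _ _ hp (h i)

end GroResXM

open DegrResM GroResXM in
theorem tResX (hRs : StmtRsE) : StmtResX := by
  intro K _ n 𝔮 𝔭 _ _ hqp E _ _ _ _ _ L _ _ _ _ _ m y u hyu htop α hα ρ ρb hρ hfin
  obtain ⟨hu, hG, hc, ha, hm, hi⟩ := hRs K n 𝔮 𝔭 hqp E L
  have h1 : Algebra.EssFiniteType K (CR 𝔭) := inferInstance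
  have h2 : Algebra.EssFiniteType (CR 𝔭) L :=
    Algebra.EssFiniteType.of_isLocalization L (nonZeroDivisors (CR 𝔭))
  have h3 : Algebra.EssFiniteType K L := Algebra.EssFiniteType.comp K (CR 𝔭) L
  set z₀ : α → L := fun a => u (a : Fin m) with hz₀
  set z : α → L := fun a => ρb (z₀ a) with hzdef
  have hz : AlgebraicIndependent K z := hα.1.map' ρb.toRingHom.injective
  have hyz : ∀ a : α, RsE 𝔮 𝔭 E L (ρ (y (a : Fin m))) (z a) := fun a =>
    hρ _ _ (hyu (a : Fin m))
  have hy : AlgebraicIndependent K (fun a : α => ρ (y (a : Fin m))) := by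
    rw [algebraicIndependent_iff]
    intro P hP
    have e1 := rse_aeval hc ha hm hyz P
    rw [hP] at e1
    have e2 := hc 0
    rw [map_zero, map_zero] at e2
    have e3 := hu _ _ _ e1 e2
    exact (algebraicIndependent_iff.1 hz) P e3
  set A : IntermediateField K L := IntermediateField.adjoin K (Set.range z₀) with hA
  have hA1 : Algebra.IsAlgebraic A L := hα.isAlgebraic_field
  have hA2 : Module.Finite A L := fin_of_alg K L A hA1
  have hAz : IntermediateField.adjoin K (Set.range z) = A.map ρb := by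
    rw [hA, IntermediateField.adjoin_map, ← Set.range_comp]
    rfl
  set ι : IntermediateField.adjoin K (Set.range fun a : α => ρ (y (a : Fin m))) →ₐ[K] L :=
    (IntermediateField.val _).comp
      (hz.aevalEquivField.toAlgHom.comp hy.aevalEquivField.symm.toAlgHom) with hι
  have hιa : ∀ c, ι c = ((hz.aevalEquivField (hy.aevalEquivField.symm c) :
      IntermediateField.adjoin K (Set.range z)) : L) := fun c => rfl
  have hrange : ι.fieldRange = IntermediateField.adjoin K (Set.range z) := by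
    apply le_antisymm
    · rintro x ⟨c, rfl⟩
      change ι c ∈ _
      rw [hιa]
      exact SetLike.coe_mem _
    · intro x hx
      refine ⟨hy.aevalEquivField (hz.aevalEquivField.symm ⟨x, hx⟩), ?_⟩
      change ι _ = x
      rw [hιa, AlgEquiv.symm_apply_apply, AlgEquiv.apply_symm_apply]
  have hrank : Module.finrank ι.fieldRange L =
      Module.finrank A L * Module.finrank ρb.fieldRange L := by
    rw [hrange, hAz, finrank_map]
  have hpos : 0 < Module.finrank A L := Module.finrank_pos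
  have hpos' : 0 < Module.finrank ρb.fieldRange L := Module.finrank_pos
  refine ⟨ι, ?_, ?_, ?_⟩
  · intro c
    obtain ⟨P, Q, hQ, hPQ⟩ := IsFractionRing.div_surjective (A := MvPolynomial α K)
      (hy.aevalEquivField.symm c)
    have hc' : (c : E) = MvPolynomial.aeval (fun a : α => ρ (y (a : Fin m))) P /
        MvPolynomial.aeval (fun a : α => ρ (y (a : Fin m))) Q := by
      rw [← ev_div hy, hPQ, AlgEquiv.apply_symm_apply]
    have hc'' : ι c = MvPolynomial.aeval z P / MvPolynomial.aeval z Q := by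
      rw [hιa, ← hPQ, ev_div hz]
    have hQ0 : MvPolynomial.aeval z Q ≠ 0 := by
      intro h0
      have h7 : Q = 0 := (algebraicIndependent_iff.1 hz) Q h0
      exact nonZeroDivisors.ne_zero hQ h7
    rw [hc', hc'', div_eq_mul_inv, div_eq_mul_inv]
    exact hm _ _ _ _ (rse_aeval hc ha hm hyz P) (hi _ _ (rse_aeval hc ha hm hyz Q) hQ0).2
  · apply Module.finite_of_finrank_pos
    rw [hrank]
    exact Nat.mul_pos hpos hpos'
  · rw [hrank]
    exact Nat.le_mul_of_pos_left _ hpos

end Pool.Agent.Lib.MP_16285c_agX
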