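import Pool.Agent.Lib.MP_16285c_agX.Gro.Spec

/-!
# The field of the degree: bookkeeping
-/

set_option autoImplicit false

namespace Pool.Agent.Lib.MP_16285c_agX

open Pool.Agent.Lib.MP_16285c_ag Pool.Agent.Lib.MP_16285c_agN

namespace GroBkXM

variable {m : ℕ} {K E : Type} [Field K] [Field E] [Algebra K E]

theorem lf_single (α : Finset (Fin m)) (g : Fin m → E) (i : Fin α.card) :
    lfX (fun i : Fin α.card => Pi.single (α.orderEmbOfFin rfl i) (1 : K)) g i =
      g (α.orderEmbOfFin rfl i) := by
  classical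
  unfold lfX
  rw [Finset.sum_eq_single (α.orderEmbOfFin rfl i)]
  · dsimp only
    rw [Pi.single_eq_same, map_one, one_mul]
  · intro j _ hj
    dsimp only
    rw [Pi.single_eq_of_ne hj, map_zero, zero_mul]
  · intro h
    exact absurd (Finset.mem_univ _) h

theorem range_lf (α : Finset (Fin m)) (g : Fin m → E) :
    Set.range (lfX (fun i : Fin α.card => Pi.single (α.orderEmbOfFin rfl i) (1 : K)) g) =
      Set.range (fun a : α => g (a : Fin m)) := by
  ext x
  constructor
  · rintro ⟨i, rfl⟩
    exact ⟨⟨α.orderEmbOfFin rfl i, α.orderEmbOfFin_mem rfl i⟩, (lf_single (K := K) α g i).symm⟩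
  · rintro ⟨⟨a, ha⟩, rfl⟩
    have h : a ∈ Set.range (α.orderEmbOfFin rfl) := by
      rw [Finset.range_orderEmbOfFin]
      exact ha
    obtain ⟨i, hi⟩ := h
    exact ⟨i, by rw [lf_single, hi]⟩

theorem fld_eq (n : ℕ) (α : Finset (Fin m)) (y g : Fin m → E) (A : Fin (n - α.card) → Fin m → K) :
    fldX A (fun i : Fin α.card => Pi.single (α.orderEmbOfFin rfl i) (1 : K)) y g =
      (IntermediateField.adjoin
        (IntermediateField.adjoin K (Set.range fun a : α => g (a : Fin m)))
        (Set.range (lfX A y))).restrictScalars K := by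
  unfold fldX
  rw [range_lf, IntermediateField.adjoin_adjoin_left, Set.union_comm]

end GroBkXM

theorem tBkX : StmtBkX := by
  intro K E _ _ _ n m α y g A
  have h : (Module.finrank (fldX A
      (fun i : Fin α.card => Pi.single (α.orderEmbOfFin rfl i) (1 : K)) y g) E : ENNReal) ≤
      degrX K n α.card y g :=
    le_iSup₂ (f := fun (A : Fin (n - α.card) → Fin m → K) (B : Fin α.card → Fin m → K) =>
      (Module.finrank (fldX A B y g) E : ENNReal)) A
      (fun i : Fin α.card => Pi.single (α.orderEmbOfFin rfl i) (1 : K))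
  rw [GroBkXM.fld_eq] at h
  exact h

end Pool.Agent.Lib.MP_16285c_agX
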