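import Pool.Agent.Lib.MP_16285c_agX.Gro.Spec

/-! # ZDX: the degree on a subvariety (`StmtDegrPX`) -/

set_option autoImplicit false

namespace Pool.Agent.Lib.MP_16285c_agX

open Pool.Agent.Lib.MP_16285c_ag Pool.Agent.Lib.MP_16285c_agN
open Pool.Agent.Lib.MP_16285c_agS (toF)

namespace GroDegrPXM

/-- `E` is generated over every intermediate field by generators over `K`. -/
theorem adj_top {K E : Type} [Field K] [Field E] [Algebra K E] {m : ℕ} (y : Fin m → E)
    (h : IntermediateField.adjoin K (Set.range y) = ⊤) (κ : IntermediateField K E) :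
    IntermediateField.adjoin κ (Set.range y) = ⊤ := by
  have h1 : IntermediateField.adjoin K (Set.range y) ≤
      (IntermediateField.adjoin κ (Set.range y)).restrictScalars K := by
    rw [IntermediateField.adjoin_le_iff]
    intro z hz
    exact IntermediateField.subset_adjoin κ _ hz
  rw [eq_top_iff]
  intro z _
  have h2 : z ∈ IntermediateField.adjoin K (Set.range y) := by
    rw [h]
    exact IntermediateField.mem_top
  exact h1 h2

/-- The values of polynomials in a subalgebra. -/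
theorem ae {K E : Type} [Field K] [Field E] [Algebra K E] {T : Type} (O : Subalgebra K E) (y' : T → O)
    (A : MvPolynomial T K) :
    ((MvPolynomial.aeval y' A : O) : E) = MvPolynomial.aeval (fun i => (y' i : E)) A := by
  have h := MvPolynomial.comp_aeval (f := y') O.val
  exact congrArg (fun f : MvPolynomial T K →ₐ[K] E => f A) h

theorem aer {K E L : Type} [Field K] [Field E] [Algebra K E] [Field L] [Algebra K L] {T : Type} (O : Subalgebra K E)
    (res : O →ₐ[K] L) (y' : T → O) (A : MvPolynomial T K) :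
    res (MvPolynomial.aeval y' A) = MvPolynomial.aeval (fun i => res (y' i)) A := by
  have h := MvPolynomial.comp_aeval (f := y') res
  exact congrArg (fun f : MvPolynomial T K →ₐ[K] L => f A) h

theorem ind {K E L : Type} [Field K] [Field E] [Algebra K E] [Field L] [Algebra K L] {T : Type} (O : Subalgebra K E)
    (res : O →ₐ[K] L) (y' : T → O) (h : AlgebraicIndependent K fun i => res (y' i)) :
    AlgebraicIndependent K fun i => (y' i : E) := by
  rw [algebraicIndependent_iff] at h ⊢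
  intro A hA
  apply h
  rw [← aer, show MvPolynomial.aeval y' A = 0 from Subtype.ext ((ae O y' A).trans hA), map_zero]

end GroDegrPXM

open GroDegrPXM in
theorem tDegrPX (hRs : StmtRsE) (hLoc : StmtLocO) (hLowF : StmtLowF) (hLowB : StmtLowB) (hLowC : StmtLowC)
    (hTB : StmtTB) (hRel : StmtRelX) (hRes : StmtResX) (hTheta : StmtThetaX) (hTrd : StmtTrdX) (hBk : StmtBkX)
    (hHat : StmtHat) (hNum : StmtNum) (hNN : StmtNN) (hUpF : StmtUpF) (hUp : StmtUp) (hG1 : StmtG1) :
    StmtDegrPX := by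
  classical
  intro K _ _ n P 𝔭 _ _ hMon hP hPz E _ _ _ _ _ L _ _ _ _ _ m y u hytop hutop hyu d Z hd0 hZ
  haveI : Infinite K := Infinite.of_injective ((↑) : ℕ → K) Nat.cast_injective
  have hle : Ideal.span {P} ≤ 𝔭 := (Ideal.span_singleton_le_iff_mem _).2 hP
  obtain ⟨huq, hpol, -, -, -, -⟩ := hRs K (n + 1) (Ideal.span {P}) 𝔭 hle E L
  obtain ⟨htb1, htb2, htb3, htb4⟩ := hTB
  -- transcendence bases
  obtain ⟨xb, hxb⟩ : ∃ xb : Fin n → L, xb = fun j => toF 𝔭 L (MvPolynomial.X j.succ) := ⟨_, rfl⟩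
  obtain ⟨α', hα'⟩ := htb1 K L n xb (by rw [hxb]; exact htb3 K n P 𝔭 hMon hP L)
  obtain ⟨α, hα⟩ := htb1 K L m u (by
    rw [hutop]
    infer_instance)
  have hc' : α'.card = rk 𝔭 := by
    have h := htb2 K (n + 1) 𝔭 L α' _ hα'
    rwa [Fintype.card_coe] at h
  have hc : α.card = rk 𝔭 := by
    have h := htb2 K (n + 1) 𝔭 L α _ hα
    rwa [Fintype.card_coe] at h
  obtain ⟨F, hF⟩ := hRel K L n xb α' hα'
  have hLF : ∀ j : Fin n, ∃ (w : ℕ) (U : PowerSeries (MvPolynomial (Fin n) L)) (v : L), j ∉ α' → 1 ≤ w ∧ v ≠ 0 ∧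
      PowerSeries.constantCoeff U = MvPolynomial.C v ∧
      ∀ y : Fin n → PowerSeries (MvPolynomial (Fin n) L),
        (∀ a ∈ α', y a = PowerSeries.C (MvPolynomial.C (xb a))) →
        y j = PowerSeries.C (MvPolynomial.C (xb j)) + PowerSeries.C (MvPolynomial.X j) * PowerSeries.X →
        MvPolynomial.eval₂ ((PowerSeries.C : MvPolynomial (Fin n) L →+* PowerSeries (MvPolynomial (Fin n) L)).comp
          ((MvPolynomial.C : L →+* MvPolynomial (Fin n) L).comp (algebraMap K L))) y (F j) =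
          PowerSeries.C (MvPolynomial.X j ^ w) * PowerSeries.X ^ w * U := by
    intro j
    by_cases hj : j ∈ α'
    · exact ⟨0, 0, 0, fun h => absurd hj h⟩
    · obtain ⟨w, U, v, h⟩ := hLowF K L n α' xb hα'.1 (F j) j hj (hF j hj).1 (hF j hj).2.1 (hF j hj).2.2
      exact ⟨w, U, v, fun _ => h⟩
  choose w U v hLF using hLF
  -- the local ring
  obtain ⟨O, res, Φ, hOmem, hOres, hOc, hOC, hOX⟩ := hLoc K n P 𝔭 hP hPz E L α'
  obtain ⟨y', hy'⟩ : ∃ y' : Fin m → O, ∀ i, (y' i : E) = y i :=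
    ⟨fun i => ⟨y i, (hOmem _).2 ⟨u i, hyu i⟩⟩, fun _ => rfl⟩
  obtain ⟨x', hx'⟩ : ∃ x' : Fin n → O, ∀ j, (x' j : E) = toF (Ideal.span {P}) E (MvPolynomial.X j.succ) :=
    ⟨fun j => ⟨toF (Ideal.span {P}) E (MvPolynomial.X j.succ), (hOmem _).2 ⟨_, hpol _⟩⟩, fun _ => rfl⟩
  have hresy : ∀ i, res (y' i) = u i := fun i => huq _ _ _ (hOres (y' i)) (by rw [hy']; exact hyu i)
  have hresx : ∀ j, res (x' j) = xb j := fun j =>
    huq _ _ _ (hOres (x' j)) (by rw [hx', hxb]; exact hpol _)
  have hay : ∀ A : MvPolynomial (Fin m) K, ((MvPolynomial.aeval y' A : O) : E) = MvPolynomial.aeval y A := by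
    intro A
    rw [ae]
    simp only [hy']
  have hau : ∀ A : MvPolynomial (Fin m) K, res (MvPolynomial.aeval y' A) = MvPolynomial.aeval u A := by
    intro A
    rw [aer]
    simp only [hresy]
  obtain ⟨G, hG⟩ : ∃ G : Fin n → MvPolynomial (Fin m) K, ∀ j, MvPolynomial.aeval y' (G j) =
      (MvPolynomial.aeval y' d) ^ (F j).totalDegree * MvPolynomial.aeval x' (F j) := by
    refine ⟨fun j => hatX d Z (F j).totalDegree (F j), fun j => ?_⟩
    refine hHat.1 K (MvPolynomial (Fin m) K) O n d Z (F j).totalDegree (F j) le_rfl (MvPolynomial.aeval y') x'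
      fun i => ?_
    apply Subtype.ext
    change (x' i : E) * ((MvPolynomial.aeval y' d : O) : E) = ((MvPolynomial.aeval y' (Z i) : O) : E)
    rw [hay, hay, hx', hZ]
  have hΦF : ∀ j, j ∉ α' → Φ (MvPolynomial.aeval x' (F j)) =
      PowerSeries.C (MvPolynomial.X j ^ w j) * PowerSeries.X ^ w j * U j := by
    intro j hj
    have h1 : Φ (MvPolynomial.aeval x' (F j)) =
        MvPolynomial.eval₂ ((PowerSeries.C : MvPolynomial (Fin n) L →+* PowerSeries (MvPolynomial (Fin n) L)).comp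
          ((MvPolynomial.C : L →+* MvPolynomial (Fin n) L).comp (algebraMap K L))) (fun i => Φ (x' i)) (F j) := by
      rw [MvPolynomial.aeval_def, MvPolynomial.hom_eval₂]
      have h2 : Φ.comp (algebraMap K O) =
          (PowerSeries.C : MvPolynomial (Fin n) L →+* PowerSeries (MvPolynomial (Fin n) L)).comp
          ((MvPolynomial.C : L →+* MvPolynomial (Fin n) L).comp (algebraMap K L)) :=
        RingHom.ext fun c => hOC c
      rw [h2]
    rw [h1]
    refine (hLF j hj).2.2.2 _ (fun a ha => ?_) ?_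
    · rw [(hOX (x' a) a (hx' a)).1 ha, hxb]
    · rw [(hOX (x' j) j (hx' j)).2 hj, hxb]
  have hcond : ∀ j, j ∉ α' → 1 ≤ w j ∧ v j * (MvPolynomial.aeval u d) ^ (F j).totalDegree ≠ 0 ∧
      PowerSeries.constantCoeff (U j * Φ (MvPolynomial.aeval y' d) ^ (F j).totalDegree) =
        MvPolynomial.C (v j * (MvPolynomial.aeval u d) ^ (F j).totalDegree) ∧
      Φ (MvPolynomial.aeval y' (G j)) = PowerSeries.C (MvPolynomial.X j ^ w j) * PowerSeries.X ^ w j *
        (U j * Φ (MvPolynomial.aeval y' d) ^ (F j).totalDegree) := by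
    intro j hj
    obtain ⟨h1, h2, h3, -⟩ := hLF j hj
    refine ⟨h1, mul_ne_zero h2 (pow_ne_zero _ hd0), ?_, ?_⟩
    · rw [map_mul, map_pow, h3, hOc, hau, MvPolynomial.C_mul, MvPolynomial.C_pow]
    · rw [hG, map_mul, map_pow, hΦF j hj]
      ring
  -- the constant
  obtain ⟨D, hD⟩ : ∃ D : ℕ, D = ∑ j, (G j).totalDegree := ⟨_, rfl⟩
  refine ⟨(D + 1) ^ (n - rk 𝔭), fun ρ ρb hR => ?_⟩
  obtain ⟨ι, hι, hfin, hle2⟩ := hRes K (n + 1) (Ideal.span {P}) 𝔭 hle E L m y u hyu hutop α hα ρ ρb hR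
    (hG1.1 K (n + 1) 𝔭 L ρb)
  obtain ⟨θ, hθ⟩ := hTheta K L m u hutop ι.fieldRange hfin
  have hLB := hLowB K L E n O res Φ hOc α' (fun j => MvPolynomial.aeval y' (G j)) w _ _ hcond _ ι
    (fun c => by
      obtain ⟨h, hh⟩ : ∃ h : O, (h : E) = c := ⟨⟨c, (hOmem _).2 ⟨ι c, hι c⟩⟩, rfl⟩
      exact ⟨h, hh, huq _ _ _ (hOres h) (by rw [hh]; exact hι c)⟩) _
    (fun i => MvPolynomial.aeval y' (θ i)) (by
      simp only [hau]
      exact hθ)
  have hLB' : LinearIndependent (IntermediateField.adjoin K (Set.range fun a : α => ρ (y (a : Fin m))))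
      (fun t : {b : Fin n → ℕ // ∀ a ∈ α', b a = 0} × Fin (Module.finrank ι.fieldRange L) =>
        MvPolynomial.aeval y ((∏ j, G j ^ (t.1 : Fin n → ℕ) j) * θ t.2)) := by
    have h1 : (fun t : {b : Fin n → ℕ // ∀ a ∈ α', b a = 0} × Fin (Module.finrank ι.fieldRange L) =>
        MvPolynomial.aeval y ((∏ j, G j ^ (t.1 : Fin n → ℕ) j) * θ t.2)) =
        fun t : {b : Fin n → ℕ // ∀ a ∈ α', b a = 0} × Fin (Module.finrank ι.fieldRange L) =>
        (((∏ j, (MvPolynomial.aeval y' (G j)) ^ (t.1 : Fin n → ℕ) j) * MvPolynomial.aeval y' (θ t.2) : O) : E) := by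
      funext t
      rw [← hay, map_mul, map_prod]
      simp only [map_pow]
    rw [h1]
    exact hLB
  obtain ⟨E₀, hE₀⟩ : ∃ E₀ : ℕ, E₀ = ∑ i, (θ i).totalDegree := ⟨_, rfl⟩
  have hlow := hLowC K E n m y _ α' _ G θ hLB' D E₀
    (fun j _ => by
      rw [hD]
      exact Finset.single_le_sum (f := fun j => (G j).totalDegree) (fun _ _ => Nat.zero_le _) (Finset.mem_univ j))
    (fun i => by
      rw [hE₀]
      exact Finset.single_le_sum (f := fun i => (θ i).totalDegree) (fun _ _ => Nat.zero_le _) (Finset.mem_univ i))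
  obtain ⟨s, A, hAI, W, hW, hV⟩ := hNN K
    (IntermediateField.adjoin K (Set.range fun a : α => ρ (y (a : Fin m)))) E m y
  have hUF := hUpF _ E m s y _ W (adj_top y hytop _) hW hV
  obtain ⟨C', hC'⟩ := hUp _ E m s y _ W hAI hW hV hUF
  have hyi : AlgebraicIndependent K (fun a : α => y (a : Fin m)) := by
    have h1 : AlgebraicIndependent K (fun a : α => res (y' (a : Fin m))) := by
      simp only [hresy]
      exact hα.1
    have h2 := ind O res (fun a : α => y' (a : Fin m)) h1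
    simp only [hy'] at h2
    exact h2
  have hρy : AlgebraicIndependent K (fun a : α => ρ (y (a : Fin m))) := hyi.map' (f := ρ) ρ.injective
  have hs := hTrd K E n (htb4 K n P hMon E) α (fun a : α => ρ (y (a : Fin m))) s _ hρy hAI hUF
  rw [Fintype.card_coe] at hs
  obtain rfl : s = n - α.card := by omega
  have hnum := hNum _ _ D (E₀ + C') (n - α.card) (fun N => by
    have h0 := hlow N
    rw [hc', ← hc] at h0
    refine h0.trans ?_
    have h1 := hC' (D * N + E₀)
    rw [add_assoc] at h1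
    exact h1)
  have hbk := hBk K E n m α y (fun i => ρ (y i)) A
  rw [← hc]
  calc (Module.finrank ρb.fieldRange L : ENNReal) ≤ (Module.finrank ι.fieldRange L : ENNReal) := by
        exact_mod_cast hle2
    _ ≤ ((_ * (D + 1) ^ (n - α.card) : ℕ) : ENNReal) := by exact_mod_cast hnum
    _ = (((D + 1) ^ (n - α.card) : ℕ) : ENNReal) * _ := by
        rw [Nat.cast_mul, mul_comm]
        rfl
    _ ≤ _ := mul_le_mul_right hbk _

end Pool.Agent.Lib.MP_16285c_agX
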