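import Pool.Agent.Lib.MP_16285c_agX.Gro.Spec

/-! # ZDX: the local ring along a subvariety and its completion (`StmtLocO`) -/

set_option autoImplicit false

namespace Pool.Agent.Lib.MP_16285c_agX

open Pool.Agent.Lib.MP_16285c_ag Pool.Agent.Lib.MP_16285c_agN
open Pool.Agent.Lib.MP_16285c_agS (toF)

namespace GroLocOM

/-- A homomorphism of the polynomial ring which kills `𝔮` and maps the complement of `𝔭` to units extends to the local ring. -/
theorem ext {K : Type} [Field K] {m : ℕ} (𝔮 𝔭 : Ideal (Pl m K)) [𝔮.IsPrime] [𝔭.IsPrime]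
    (E : Type) [Field E] [Algebra (CR 𝔮) E] [IsFractionRing (CR 𝔮) E] [Algebra K E] [IsScalarTower K (CR 𝔮) E]
    {T : Type} [CommRing T] (ψ : Pl m K →+* T) (hq : ∀ G ∈ 𝔮, ψ G = 0) (hu : ∀ B, B ∉ 𝔭 → IsUnit (ψ B))
    (O : Subalgebra K E) (hO : ∀ h ∈ O, ∃ A B : Pl m K, B ∉ 𝔭 ∧ h * toF 𝔮 E B = toF 𝔮 E A) :
    ∃ Ψ : O →+* T, ∀ (h : O) (A B : Pl m K), B ∉ 𝔭 → (h : E) * toF 𝔮 E B = toF 𝔮 E A → Ψ h * ψ B = ψ A := by
  classical
  have h1p : (1 : Pl m K) ∉ 𝔭 := (Ideal.ne_top_iff_one 𝔭).1 (Ideal.IsPrime.ne_top inferInstance)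
  have hker : ∀ G : Pl m K, toF 𝔮 E G = 0 → ψ G = 0 := by
    intro G hG
    apply hq
    have h1 : algebraMap (CR 𝔮) E (Ideal.Quotient.mk 𝔮 G) = 0 := hG
    rw [map_eq_zero_iff _ (IsFractionRing.injective (CR 𝔮) E)] at h1
    exact Ideal.Quotient.eq_zero_iff_mem.1 h1
  choose A B hB hAB using fun h : O => hO (h : E) h.2
  have key : ∀ (h : O) (A' B' : Pl m K), B' ∉ 𝔭 → (h : E) * toF 𝔮 E B' = toF 𝔮 E A' →
      (ψ (A h) * (((hu _ (hB h)).unit⁻¹ : Tˣ) : T)) * ψ B' = ψ A' := by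
    intro h A' B' hB' hAB'
    have h1 : toF 𝔮 E (A h * B' - A' * B h) = 0 := by
      rw [map_sub, map_mul, map_mul, ← hAB h, ← hAB']
      ring
    have h2 := hker _ h1
    rw [map_sub, map_mul, map_mul, sub_eq_zero] at h2
    have h3 : ψ (B h) * (((hu _ (hB h)).unit⁻¹ : Tˣ) : T) = 1 := (hu _ (hB h)).mul_val_inv
    calc (ψ (A h) * (((hu _ (hB h)).unit⁻¹ : Tˣ) : T)) * ψ B'
        = (ψ (A h) * ψ B') * (((hu _ (hB h)).unit⁻¹ : Tˣ) : T) := by ring
      _ = ψ A' * (ψ (B h) * (((hu _ (hB h)).unit⁻¹ : Tˣ) : T)) := by rw [h2]; ring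
      _ = ψ A' := by rw [h3, mul_one]
  refine ⟨{ toFun := fun h => ψ (A h) * (((hu _ (hB h)).unit⁻¹ : Tˣ) : T)
            map_one' := ?_, map_mul' := ?_, map_zero' := ?_, map_add' := ?_ }, key⟩
  · have h := key 1 1 1 h1p (by simp)
    rwa [map_one, mul_one] at h
  · intro x y
    have h := key (x * y) (A x * A y) (B x * B y) (fun hm => (Ideal.IsPrime.mem_or_mem inferInstance hm).elim (hB x) (hB y)) (by
      rw [map_mul, map_mul, ← hAB x, ← hAB y]
      push_cast
      ring)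
    have hx := key x (A x) (B x) (hB x) (hAB x)
    have hy := key y (A y) (B y) (hB y) (hAB y)
    have hu2 := (hu _ (hB x)).mul (hu _ (hB y))
    refine hu2.mul_right_cancel ?_
    rw [map_mul, map_mul] at h
    refine h.trans ?_
    linear_combination (-(ψ (A y))) * hx - (ψ (A x) * (((hu _ (hB x)).unit⁻¹ : Tˣ) : T) * ψ (B x)) * hy
  · have h := key 0 0 1 h1p (by simp)
    rwa [map_one, mul_one, map_zero] at h
  · intro x y
    have h := key (x + y) (A x * B y + A y * B x) (B x * B y)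
      (fun hm => (Ideal.IsPrime.mem_or_mem inferInstance hm).elim (hB x) (hB y)) (by
      rw [map_add, map_mul, map_mul, map_mul, ← hAB x, ← hAB y]
      push_cast
      ring)
    have hx := key x (A x) (B x) (hB x) (hAB x)
    have hy := key y (A y) (B y) (hB y) (hAB y)
    have hu2 := (hu _ (hB x)).mul (hu _ (hB y))
    refine hu2.mul_right_cancel ?_
    rw [map_add, map_mul, map_mul, map_mul] at h
    refine h.trans ?_
    linear_combination (-(ψ (B y))) * hx - (ψ (B x)) * hy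

/-- The point of the generic point of `V(𝔭)`. -/
theorem eval_toF {K : Type} [Field K] {m : ℕ} (𝔭 : Ideal (Pl m K)) [𝔭.IsPrime]
    (L : Type) [Field L] [Algebra (CR 𝔭) L] [Algebra K L] [IsScalarTower K (CR 𝔭) L] (G : Pl m K) :
    MvPolynomial.eval (fun i => toF 𝔭 L (MvPolynomial.X i)) (MvPolynomial.map (algebraMap K L) G) = toF 𝔭 L G := by
  have hC : ∀ c : K, toF 𝔭 L (MvPolynomial.C c) = algebraMap K L c := by
    intro c
    exact (IsScalarTower.algebraMap_apply K (CR 𝔭) L c).symm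
  have h : (MvPolynomial.eval (fun i => toF 𝔭 L (MvPolynomial.X i))).comp (MvPolynomial.map (algebraMap K L)) =
      toF 𝔭 L := by
    refine MvPolynomial.ringHom_ext (fun c => ?_) (fun i => ?_)
    · rw [RingHom.comp_apply, MvPolynomial.map_C, MvPolynomial.eval_C, hC]
    · rw [RingHom.comp_apply, MvPolynomial.map_X, MvPolynomial.eval_X]
  exact congrArg (fun f : Pl m K →+* L => f G) h

/-- The completion. -/
theorem phi0 (hA2 : StmtA2) (K : Type) [Field K] (n : ℕ) (P : Pl (n + 1) K) (𝔭 : Ideal (Pl (n + 1) K)) [𝔭.IsPrime]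
    (hP : P ∈ 𝔭) (hPz : MvPolynomial.pderiv 0 P ∉ 𝔭)
    (L : Type) [Field L] [Algebra (CR 𝔭) L] [IsFractionRing (CR 𝔭) L] [Algebra K L] [IsScalarTower K (CR 𝔭) L]
    (α : Finset (Fin n)) :
    ∃ Φ : Pl (n + 1) K →+* PowerSeries (MvPolynomial (Fin n) L), Φ P = 0 ∧
      (∀ G, PowerSeries.constantCoeff (Φ G) = MvPolynomial.C (toF 𝔭 L G)) ∧
      (∀ c : K, Φ (MvPolynomial.C c) = PowerSeries.C (MvPolynomial.C (algebraMap K L c))) ∧
      ∀ j : Fin n, (j ∈ α → Φ (MvPolynomial.X j.succ) =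
          PowerSeries.C (MvPolynomial.C (toF 𝔭 L (MvPolynomial.X j.succ)))) ∧
        (j ∉ α → Φ (MvPolynomial.X j.succ) =
          PowerSeries.C (MvPolynomial.C (toF 𝔭 L (MvPolynomial.X j.succ))) +
          PowerSeries.C (MvPolynomial.X j) * PowerSeries.X) := by
  classical
  have hne : ∀ G : Pl (n + 1) K, G ∉ 𝔭 → toF 𝔭 L G ≠ 0 := by
    intro G hG h
    apply hG
    have h1 : algebraMap (CR 𝔭) L (Ideal.Quotient.mk 𝔭 G) = 0 := h
    rw [map_eq_zero_iff _ (IsFractionRing.injective (CR 𝔭) L)] at h1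
    exact Ideal.Quotient.eq_zero_iff_mem.1 h1
  have hz : ∀ G : Pl (n + 1) K, G ∈ 𝔭 → toF 𝔭 L G = 0 := by
    intro G hG
    change algebraMap (CR 𝔭) L (Ideal.Quotient.mk 𝔭 G) = 0
    rw [Ideal.Quotient.eq_zero_iff_mem.2 hG, map_zero]
  set d : L := toF 𝔭 L (MvPolynomial.pderiv 0 P) with hd
  have hd0 : d ≠ 0 := hne _ hPz
  obtain ⟨γ, hγ0, hγX, hγc⟩ := hA2 L (n + 1) 1
    (fun _ => MvPolynomial.C d⁻¹ * MvPolynomial.map (algebraMap K L) P) (fun _ => 0)
    (fun i => toF 𝔭 L (MvPolynomial.X i)) (Function.injective_of_subsingleton _)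
    (by
      intro _
      rw [map_mul, eval_toF, hz P hP, mul_zero])
    (by
      intro j l
      rw [if_pos (Subsingleton.elim l j)]
      unfold grad
      rw [MvPolynomial.pderiv_C_mul, MvPolynomial.pderiv_map, map_mul, MvPolynomial.eval_C, eval_toF]
      exact inv_mul_cancel₀ hd0)
  have hγP : γ (MvPolynomial.map (algebraMap K L) P) = 0 := by
    have h1 := hγ0 0
    have h2 : MvPolynomial.map (algebraMap K L) P =
        MvPolynomial.C d * (MvPolynomial.C d⁻¹ * MvPolynomial.map (algebraMap K L) P) := by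
      rw [← mul_assoc, ← MvPolynomial.C_mul, mul_inv_cancel₀ hd0, MvPolynomial.C_1, one_mul]
    rw [h2, map_mul, h1, mul_zero]
  set μ : MvPolynomial (Fin (n + 1)) L →ₐ[L] MvPolynomial (Fin n) L :=
    MvPolynomial.aeval (Fin.cases (motive := fun _ => MvPolynomial (Fin n) L) 0
      (fun j => if j ∈ α then 0 else MvPolynomial.X j)) with hμ
  refine ⟨((PowerSeries.map (μ : MvPolynomial (Fin (n + 1)) L →+* MvPolynomial (Fin n) L)).comp
    (γ : Pl (n + 1) L →+* PowerSeries (MvPolynomial (Fin (n + 1)) L))).comp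
      (MvPolynomial.map (algebraMap K L)), ?_, ?_, ?_, ?_⟩
  · change PowerSeries.map (μ : MvPolynomial (Fin (n + 1)) L →+* MvPolynomial (Fin n) L)
      (γ (MvPolynomial.map (algebraMap K L) P)) = 0
    rw [hγP, map_zero]
  · intro G
    change PowerSeries.constantCoeff (PowerSeries.map (μ : MvPolynomial (Fin (n + 1)) L →+* MvPolynomial (Fin n) L)
      (γ (MvPolynomial.map (algebraMap K L) G))) = _
    rw [← PowerSeries.coeff_zero_eq_constantCoeff_apply, PowerSeries.coeff_map,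
      PowerSeries.coeff_zero_eq_constantCoeff_apply, hγc, eval_toF]
    exact μ.commutes _
  · intro c
    change PowerSeries.map (μ : MvPolynomial (Fin (n + 1)) L →+* MvPolynomial (Fin n) L)
      (γ (MvPolynomial.map (algebraMap K L) (MvPolynomial.C c))) = _
    have h1 : γ (MvPolynomial.map (algebraMap K L) (MvPolynomial.C c)) =
        PowerSeries.C (MvPolynomial.C (algebraMap K L c)) := by
      rw [MvPolynomial.map_C]
      have h0 := γ.commutes (algebraMap K L c)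
      rw [PowerSeries.algebraMap_apply, MvPolynomial.algebraMap_eq] at h0
      exact h0
    have h2 : (μ : MvPolynomial (Fin (n + 1)) L →+* MvPolynomial (Fin n) L) (MvPolynomial.C (algebraMap K L c)) =
        MvPolynomial.C (algebraMap K L c) := μ.commutes _
    rw [h1, PowerSeries.map_C, h2]
  · intro j
    have h1 : γ (MvPolynomial.map (algebraMap K L) (MvPolynomial.X j.succ)) =
        PowerSeries.C (MvPolynomial.C (toF 𝔭 L (MvPolynomial.X j.succ))) +
          PowerSeries.C (MvPolynomial.X j.succ) * PowerSeries.X := by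
      rw [MvPolynomial.map_X]
      refine hγX _ ?_
      rintro ⟨_, h⟩
      exact Fin.succ_ne_zero j h.symm
    have h2 : PowerSeries.map (μ : MvPolynomial (Fin (n + 1)) L →+* MvPolynomial (Fin n) L)
        (γ (MvPolynomial.map (algebraMap K L) (MvPolynomial.X j.succ))) =
        PowerSeries.C (MvPolynomial.C (toF 𝔭 L (MvPolynomial.X j.succ))) +
          PowerSeries.C (if j ∈ α then 0 else MvPolynomial.X j) * PowerSeries.X := by
      have h3 : (μ : MvPolynomial (Fin (n + 1)) L →+* MvPolynomial (Fin n) L)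
          (MvPolynomial.C (toF 𝔭 L (MvPolynomial.X j.succ))) =
          MvPolynomial.C (toF 𝔭 L (MvPolynomial.X j.succ)) := μ.commutes _
      have h4 : (μ : MvPolynomial (Fin (n + 1)) L →+* MvPolynomial (Fin n) L) (MvPolynomial.X j.succ) =
          if j ∈ α then 0 else MvPolynomial.X j := by
        change μ (MvPolynomial.X j.succ) = _
        rw [hμ, MvPolynomial.aeval_X]
        rfl
      rw [h1, map_add, map_mul, PowerSeries.map_C, PowerSeries.map_C, PowerSeries.map_X, h3, h4]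
    refine ⟨fun hj => ?_, fun hj => ?_⟩
    · refine h2.trans ?_
      rw [if_pos hj, map_zero, zero_mul, add_zero]
    · refine h2.trans ?_
      rw [if_neg hj]

end GroLocOM

open GroLocOM in
theorem tLocO (hRs : StmtRsE) (hA2 : StmtA2) : StmtLocO := by
  intro K _ n P 𝔭 _ _ hP hPz E _ _ _ _ _ L _ _ _ _ _ α
  have hle : Ideal.span {P} ≤ 𝔭 := (Ideal.span_singleton_le_iff_mem _).2 hP
  obtain ⟨huq, hpol, hcon, hadd, hmul, -⟩ := hRs K (n + 1) (Ideal.span {P}) 𝔭 hle E L
  have h1p : (1 : Pl (n + 1) K) ∉ 𝔭 := (Ideal.ne_top_iff_one 𝔭).1 (Ideal.IsPrime.ne_top inferInstance)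
  have hne : ∀ G : Pl (n + 1) K, G ∉ 𝔭 → toF 𝔭 L G ≠ 0 := by
    intro G hG h
    apply hG
    have h1 : algebraMap (CR 𝔭) L (Ideal.Quotient.mk 𝔭 G) = 0 := h
    rw [map_eq_zero_iff _ (IsFractionRing.injective (CR 𝔭) L)] at h1
    exact Ideal.Quotient.eq_zero_iff_mem.1 h1
  have hz : ∀ G : Pl (n + 1) K, G ∈ 𝔭 → toF 𝔭 L G = 0 := by
    intro G hG
    change algebraMap (CR 𝔭) L (Ideal.Quotient.mk 𝔭 G) = 0
    rw [Ideal.Quotient.eq_zero_iff_mem.2 hG, map_zero]
  let O : Subalgebra K E :=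
    { carrier := {h | ∃ u : L, RsE (Ideal.span {P}) 𝔭 E L h u}
      mul_mem' := by
        rintro a b ⟨u, hu⟩ ⟨v, hv⟩
        exact ⟨u * v, hmul _ _ _ _ hu hv⟩
      add_mem' := by
        rintro a b ⟨u, hu⟩ ⟨v, hv⟩
        exact ⟨u + v, hadd _ _ _ _ hu hv⟩
      algebraMap_mem' := fun c => ⟨algebraMap K L c, hcon c⟩ }
  have hO : ∀ h ∈ O, ∃ A B : Pl (n + 1) K, B ∉ 𝔭 ∧
      h * toF (Ideal.span {P}) E B = toF (Ideal.span {P}) E A := by
    rintro h ⟨u, A, B, hB, h1, -⟩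
    exact ⟨A, B, hB, h1⟩
  obtain ⟨res, hres⟩ := ext (Ideal.span {P}) 𝔭 E (toF 𝔭 L) (fun G hG => hz G (hle hG))
    (fun B hB => (isUnit_iff_ne_zero.2 (hne B hB))) O hO
  obtain ⟨Φ₀, hΦP, hΦc, hΦC, hΦX⟩ := phi0 hA2 K n P 𝔭 hP hPz L α
  obtain ⟨Φ, hΦ⟩ := ext (Ideal.span {P}) 𝔭 E Φ₀
    (by
      intro G hG
      obtain ⟨Q, rfl⟩ := Ideal.mem_span_singleton'.1 hG
      rw [map_mul, hΦP, mul_zero])
    (by
      intro B hB
      rw [PowerSeries.isUnit_iff_constantCoeff, hΦc]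
      exact (isUnit_iff_ne_zero.2 (hne B hB)).map MvPolynomial.C) O hO
  have hCE : ∀ c : K, toF (Ideal.span {P}) E (MvPolynomial.C c) = algebraMap K E c := fun c =>
    (IsScalarTower.algebraMap_apply K (CR (Ideal.span {P})) E c).symm
  have hCL : ∀ c : K, toF 𝔭 L (MvPolynomial.C c) = algebraMap K L c := fun c =>
    (IsScalarTower.algebraMap_apply K (CR 𝔭) L c).symm
  refine ⟨O, { res with commutes' := ?_ }, Φ, ?_, ?_, ?_, ?_, ?_⟩
  · intro c
    have h := hres (algebraMap K O c) (MvPolynomial.C c) 1 h1p (by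
      rw [map_one, mul_one, hCE]
      rfl)
    rw [map_one, mul_one, hCL] at h
    exact h
  · intro h
    exact Iff.rfl
  · intro h
    obtain ⟨A, B, hB, h1⟩ := hO h h.2
    exact ⟨A, B, hB, h1, hres h A B hB h1⟩
  · intro h
    obtain ⟨A, B, hB, h1⟩ := hO h h.2
    have h2 := congrArg PowerSeries.constantCoeff (hΦ h A B hB h1)
    rw [map_mul, hΦc, hΦc, ← hres h A B hB h1, MvPolynomial.C_mul] at h2
    exact mul_right_cancel₀ (fun h3 => hne B hB (MvPolynomial.C_eq_zero.1 h3)) h2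
  · intro c
    have h := hΦ (algebraMap K O c) (MvPolynomial.C c) 1 h1p (by
      rw [map_one, mul_one, hCE]
      rfl)
    rw [map_one, mul_one, hΦC] at h
    exact h
  · intro h j hj
    have h1 := hΦ h (MvPolynomial.X j.succ) 1 h1p (by
      rw [map_one, mul_one, hj])
    rw [map_one, mul_one] at h1
    rw [h1]
    exact hΦX j

end Pool.Agent.Lib.MP_16285c_agX
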