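import Pool.Agent.Lib.MP_16285c_agX.Gro.Spec

/-!
# Lowest order terms (E4 of the growth part)
-/

set_option autoImplicit false

namespace Pool.Agent.Lib.MP_16285c_agX

open Pool.Agent.Lib.MP_16285c_ag Pool.Agent.Lib.MP_16285c_agN

namespace GroLowAM

theorem prod_X {n : ℕ} {L : Type} [Field L] (e : Fin n → ℕ) :
    (∏ j, (MvPolynomial.X j : MvPolynomial (Fin n) L) ^ e j) =
      MvPolynomial.monomial (Finsupp.equivFunOnFinite.symm e) 1 := by
  rw [MvPolynomial.monomial_eq, map_one, one_mul, Finsupp.prod_fintype _ _ fun i => pow_zero _]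
  rfl

end GroLowAM

open GroLowAM in
theorem tLowA : StmtLowA := by
  classical
  intro L O _ _ n Φ res hres α G w U v hG S q hS hsum b hb hmin
  obtain ⟨k, hk⟩ : ∃ k : (Fin n → ℕ) → ℕ, k = fun b' => ∑ j, w j * b' j := ⟨_, rfl⟩
  obtain ⟨U', hU⟩ : ∃ U' : Fin n → PowerSeries (MvPolynomial (Fin n) L),
      U' = fun j => if j ∈ α then 1 else U j := ⟨_, rfl⟩
  obtain ⟨v', hv⟩ : ∃ v' : Fin n → L, v' = fun j => if j ∈ α then 1 else v j := ⟨_, rfl⟩
  have hU' : ∀ j, PowerSeries.constantCoeff (U' j) = MvPolynomial.C (v' j) := by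
    intro j
    rw [hU, hv]
    by_cases hj : j ∈ α
    · simp only [if_pos hj, map_one]
    · simp only [if_neg hj]
      exact (hG j hj).2.2.1
  have hv' : ∀ j, v' j ≠ 0 := by
    intro j
    rw [hv]
    by_cases hj : j ∈ α
    · simp only [if_pos hj]
      exact one_ne_zero
    · simp only [if_neg hj]
      exact (hG j hj).2.1
  have h1 : ∀ b' ∈ S, Φ (∏ j, G j ^ b' j) =
      PowerSeries.C (∏ j, MvPolynomial.X j ^ (w j * b' j)) *
        (PowerSeries.X ^ k b' * ∏ j, U' j ^ b' j) := by
    intro b' hb'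
    have h2 : ∀ j, Φ (G j ^ b' j) = PowerSeries.C (MvPolynomial.X j ^ (w j * b' j)) *
        (PowerSeries.X ^ (w j * b' j) * U' j ^ b' j) := by
      intro j
      by_cases hj : j ∈ α
      · rw [hS b' hb' j hj]
        simp
      · rw [map_pow, (hG j hj).2.2.2, hU]
        simp only [if_neg hj]
        rw [mul_pow, mul_pow, ← map_pow, ← pow_mul, ← pow_mul, mul_assoc]
    rw [map_prod, Finset.prod_congr rfl fun j _ => h2 j, Finset.prod_mul_distrib,
      Finset.prod_mul_distrib, map_prod, Finset.prod_pow_eq_pow_sum, hk]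
  have h2 : ∀ b' ∈ S, PowerSeries.coeff (k b) (Φ ((∏ j, G j ^ b' j) * q b')) =
      if k b' = k b then (∏ j, MvPolynomial.X j ^ (w j * b' j)) *
        MvPolynomial.C ((∏ j, v' j ^ b' j) * res (q b')) else 0 := by
    intro b' hb'
    rw [map_mul, h1 b' hb', mul_assoc, mul_assoc, PowerSeries.coeff_C_mul]
    have hle : k b ≤ k b' := by
      rw [hk]
      exact hmin b' hb'
    by_cases he : k b' = k b
    · rw [if_pos he, he]
      congr 1
      rw [PowerSeries.coeff_X_pow_mul', if_pos le_rfl, Nat.sub_self,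
        PowerSeries.coeff_zero_eq_constantCoeff_apply, map_mul, map_prod, hres, map_mul, map_prod]
      congr 1
      refine Finset.prod_congr rfl fun j _ => ?_
      rw [map_pow, hU', map_pow]
    · have hlt : ¬ k b' ≤ k b := by omega
      rw [if_neg he, PowerSeries.coeff_X_pow_mul', if_neg hlt, mul_zero]
  have h3 : ∑ b' ∈ S, (if k b' = k b then (∏ j, MvPolynomial.X j ^ (w j * b' j)) *
        MvPolynomial.C ((∏ j, v' j ^ b' j) * res (q b')) else (0 : MvPolynomial (Fin n) L)) = 0 := by
    have h4 := congrArg (fun h => PowerSeries.coeff (k b) (Φ h)) hsum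
    simp only [map_sum, map_zero] at h4
    exact (Finset.sum_congr rfl fun b' hb' => (h2 b' hb').symm).trans h4
  have h5 := congrArg (MvPolynomial.coeff (Finsupp.equivFunOnFinite.symm fun j => w j * b j)) h3
  rw [MvPolynomial.coeff_sum, MvPolynomial.coeff_zero, Finset.sum_eq_single b] at h5
  · rw [if_pos rfl, mul_comm, MvPolynomial.coeff_C_mul, prod_X, MvPolynomial.coeff_monomial,
      if_pos rfl, mul_one] at h5
    rcases mul_eq_zero.1 h5 with h6 | h6
    · exact absurd h6 (Finset.prod_ne_zero_iff.2 fun j _ => pow_ne_zero _ (hv' j))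
    · exact h6
  · intro b' hb' hne
    split_ifs with he
    · rw [mul_comm, MvPolynomial.coeff_C_mul, prod_X, MvPolynomial.coeff_monomial, if_neg, mul_zero]
      intro h6
      apply hne
      have h7 : (fun j => w j * b' j) = fun j => w j * b j :=
        Finsupp.equivFunOnFinite.symm.injective h6
      funext j
      by_cases hj : j ∈ α
      · rw [hS b' hb' j hj, hS b hb j hj]
      · exact Nat.eq_of_mul_eq_mul_left (hG j hj).1 (congrFun h7 j)
    · exact MvPolynomial.coeff_zero _
  · intro h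
    exact absurd hb h

end Pool.Agent.Lib.MP_16285c_agX
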