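import Pool.Agent.Lib.MP_16285c_agX.Gro.Spec
import Pool.Agent.Lib.MP_16285c_agN.Degr.Low1

/-!
# Expansion of a relation

Proof of `StmtLowF`.
-/

set_option autoImplicit false

namespace Pool.Agent.Lib.MP_16285c_agX

open Pool.Agent.Lib.MP_16285c_ag Pool.Agent.Lib.MP_16285c_agN

namespace GroLowFM

open MvPolynomial

variable {n : ℕ} {K : Type} [Field K] {L : Type} [Field L] [Algebra K L]

/-- The constants of the power series ring. -/
noncomputable def cc (n : ℕ) (L : Type) [Field L] : L →+* PowerSeries (MvPolynomial (Fin n) L) :=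
  (PowerSeries.C : MvPolynomial (Fin n) L →+* PowerSeries (MvPolynomial (Fin n) L)).comp
    (MvPolynomial.C : L →+* MvPolynomial (Fin n) L)

/-- The parameter. -/
noncomputable def tt (L : Type) [Field L] (j : Fin n) : PowerSeries (MvPolynomial (Fin n) L) :=
  PowerSeries.C (MvPolynomial.X j) * PowerSeries.X

theorem ev_lift (φ : Pl n K →ₐ[K] L) (α : Finset (Fin n)) (j : Fin n) (F : Pl n K)
    (hF : F.vars ⊆ insert j α) (y : Fin n → PowerSeries (MvPolynomial (Fin n) L))
    (hy : ∀ a ∈ α, y a = cc n L (φ (X a))) :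
    MvPolynomial.eval₂ ((cc n L).comp (algebraMap K L)) y F =
      Polynomial.eval₂ (cc n L) (y j) (DegrLow1M.th φ j F) := by
  have h : (MvPolynomial.eval₂Hom ((cc n L).comp (algebraMap K L)) y) F =
      ((Polynomial.eval₂RingHom (cc n L) (y j)).comp (DegrLow1M.th φ j).toRingHom) F := by
    refine MvPolynomial.hom_congr_vars ?_ ?_ rfl
    · refine RingHom.ext fun c => ?_
      show MvPolynomial.eval₂Hom ((cc n L).comp (algebraMap K L)) y (C c) =
        Polynomial.eval₂ (cc n L) (y j) (DegrLow1M.th φ j (C c))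
      rw [MvPolynomial.eval₂Hom_C, DegrLow1M.th_C, Polynomial.eval₂_C]
      rfl
    · intro i hi _
      have hi' := hF hi
      show MvPolynomial.eval₂Hom ((cc n L).comp (algebraMap K L)) y (X i) =
        Polynomial.eval₂ (cc n L) (y j) (DegrLow1M.th φ j (X i))
      rw [MvPolynomial.eval₂Hom_X', DegrLow1M.th, aeval_X]
      by_cases hij : i = j
      · subst hij
        rw [if_pos rfl, Polynomial.eval₂_X]
      · have hiα : i ∈ α := (Finset.mem_insert.1 hi').resolve_left hij
        rw [if_neg hij, Polynomial.eval₂_C]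
        exact hy i hiα
  exact h

theorem cc_ev (j : Fin n) (h : Polynomial L) :
    PowerSeries.constantCoeff (Polynomial.eval₂ (cc n L) (tt L j) h) =
      MvPolynomial.C (h.coeff 0) := by
  rw [Polynomial.hom_eval₂]
  have h0 : PowerSeries.constantCoeff (tt L j) = 0 := by
    rw [tt, map_mul, PowerSeries.constantCoeff_X, mul_zero]
  rw [h0, Polynomial.eval₂_at_zero]
  show PowerSeries.constantCoeff (PowerSeries.C (MvPolynomial.C (h.coeff 0))) = _
  rw [PowerSeries.constantCoeff_C]

theorem main (φ : Pl n K →ₐ[K] L) (α : Finset (Fin n))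
    (hα : AlgebraicIndependent K (fun a : α => φ (MvPolynomial.X (a : Fin n)))) (F : Pl n K)
    (j : Fin n) (hj : j ∉ α) (hF0 : F ≠ 0) (hφ : φ F = 0) (hF : F.vars ⊆ insert j α) :
    ∃ (w : ℕ) (U : PowerSeries (MvPolynomial (Fin n) L)) (v : L), 1 ≤ w ∧ v ≠ 0 ∧
      PowerSeries.constantCoeff U = MvPolynomial.C v ∧
      ∀ y : Fin n → PowerSeries (MvPolynomial (Fin n) L),
        (∀ a ∈ α, y a = cc n L (φ (X a))) →
        y j = cc n L (φ (X j)) + tt L j →
        MvPolynomial.eval₂ ((cc n L).comp (algebraMap K L)) y F =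
          PowerSeries.C (MvPolynomial.X j ^ w) * PowerSeries.X ^ w * U := by
  have h1 : DegrLow1M.th φ j F ≠ 0 := fun h => hF0 (DegrLow1M.th_inj φ α hα j hj F hF h)
  set f : Polynomial L := Polynomial.taylor (φ (X j)) (DegrLow1M.th φ j F) with hf
  have hf0 : f ≠ 0 := by
    intro h
    refine h1 (Polynomial.taylor_injective (φ (X j)) ?_)
    rw [map_zero]
    exact h
  have hfc : f.coeff 0 = 0 := by
    rw [hf, Polynomial.taylor_coeff_zero, DegrLow1M.ev_th, hφ]
  obtain ⟨h, hfh, hh⟩ := Polynomial.exists_eq_pow_rootMultiplicity_mul_and_not_dvd f hf0 0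
  rw [Polynomial.C_0, sub_zero] at hfh hh
  have hh0 : h.coeff 0 ≠ 0 := fun h2 => hh (Polynomial.X_dvd_iff.2 h2)
  refine ⟨f.rootMultiplicity 0, Polynomial.eval₂ (cc n L) (tt L j) h, h.coeff 0, ?_, hh0,
    cc_ev j h, ?_⟩
  · by_contra hlt
    have h3 : f.rootMultiplicity 0 = 0 := by omega
    rw [h3, pow_zero, one_mul] at hfh
    exact hh0 (by rw [← hfh]; exact hfc)
  · intro y hy hyj
    rw [ev_lift φ α j F hF y hy, hyj]
    have h4 : Polynomial.eval₂ (cc n L) (tt L j) f =
        Polynomial.eval₂ (cc n L) (cc n L (φ (X j)) + tt L j) (DegrLow1M.th φ j F) := by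
      rw [hf, Polynomial.taylor_apply, Polynomial.eval₂_comp, Polynomial.eval₂_add,
        Polynomial.eval₂_X, Polynomial.eval₂_C, add_comm]
    rw [← h4]
    conv_lhs => rw [hfh]
    rw [Polynomial.eval₂_mul, Polynomial.eval₂_pow, Polynomial.eval₂_X]
    congr 1
    rw [tt, mul_pow, map_pow]

end GroLowFM

theorem tLowF : StmtLowF := by
  intro K L _ _ _ n α x hα F j hj hF0 hF hvars
  have hx : ∀ i, (MvPolynomial.aeval x : Pl n K →ₐ[K] L) (MvPolynomial.X i) = x i :=
    fun i => MvPolynomial.aeval_X x i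
  have hα' : AlgebraicIndependent K
      (fun a : α => (MvPolynomial.aeval x : Pl n K →ₐ[K] L) (MvPolynomial.X (a : Fin n))) := by
    have he : (fun a : α => (MvPolynomial.aeval x : Pl n K →ₐ[K] L)
        (MvPolynomial.X (a : Fin n))) = fun a : α => x (a : Fin n) :=
      funext fun a => hx a
    rw [he]
    exact hα
  obtain ⟨w, U, v, hw, hv, hU, hy⟩ := GroLowFM.main (MvPolynomial.aeval x) α hα' F j hj hF0 hF hvars
  refine ⟨w, U, v, hw, hv, hU, fun y hya hyj => ?_⟩
  refine hy y (fun a ha => ?_) ?_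
  · rw [hx]
    exact hya a ha
  · rw [hx]
    exact hyj

end Pool.Agent.Lib.MP_16285c_agX
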