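import Pool.Agent.Lib.MP_16285c_agX.Gro.Spec

/-!
# Relations between the coordinates of a point and a transcendence basis
-/

set_option autoImplicit false

namespace Pool.Agent.Lib.MP_16285c_agX

open Pool.Agent.Lib.MP_16285c_ag Pool.Agent.Lib.MP_16285c_agN

namespace GroRelXM

theorem one {K L : Type} [Field K] [Field L] [Algebra K L] {n : ℕ} (x : Fin n → L) (α : Finset (Fin n))
    (hα : IsTranscendenceBasis K (fun a : α => x (a : Fin n))) (j : Fin n) (hj : j ∉ α) :
    ∃ F : MvPolynomial (Fin n) K, F ≠ 0 ∧ MvPolynomial.aeval x F = 0 ∧ F.vars ⊆ insert j α := by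
  set β : Finset (Fin n) := insert j α with hβ
  set y : β → L := fun a : β => x (a : Fin n) with hy
  have hnot : ¬ AlgebraicIndependent K y := by
    intro hind
    have hsub : Set.range (fun a : α => x (a : Fin n)) ⊆ Set.range y := by
      rintro _ ⟨a, rfl⟩
      exact ⟨⟨a, Finset.mem_insert_of_mem a.2⟩, rfl⟩
    have heq := hα.2 (Set.range y) (AlgebraicIndependent.coe_range hind) hsub
    have hmem : y ⟨j, Finset.mem_insert_self j α⟩ ∈
        Set.range (fun a : α => x (a : Fin n)) := by
      have h0 : y ⟨j, Finset.mem_insert_self j α⟩ ∈ Set.range y := ⟨_, rfl⟩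
      rwa [← heq] at h0
    obtain ⟨a, ha⟩ := hmem
    have hinj := hind.injective
    have h1 : y ⟨(a : Fin n), Finset.mem_insert_of_mem a.2⟩ =
        y ⟨j, Finset.mem_insert_self j α⟩ := ha
    have h2 := hinj h1
    have h3 : (a : Fin n) = j := congrArg Subtype.val h2
    exact hj (h3 ▸ a.2)
  rw [algebraicIndependent_iff] at hnot
  push Not at hnot
  obtain ⟨p, hp0, hpne⟩ := hnot
  refine ⟨MvPolynomial.rename (fun a : β => (a : Fin n)) p, ?_, ?_, ?_⟩
  · intro h0
    apply hpne
    have h1 : MvPolynomial.rename (fun a : β => (a : Fin n)) p =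
        MvPolynomial.rename (fun a : β => (a : Fin n)) 0 := by rw [h0, map_zero]
    exact MvPolynomial.rename_injective _ Subtype.val_injective h1
  · rw [MvPolynomial.aeval_rename]
    exact hp0
  · intro i hi
    have h1 := MvPolynomial.vars_rename (fun a : β => (a : Fin n)) p hi
    rw [Finset.mem_image] at h1
    obtain ⟨a, _, rfl⟩ := h1
    exact a.2

end GroRelXM

theorem tRelX : StmtRelX := by
  intro K L _ _ _ n x α hα
  have h : ∀ j : Fin n, ∃ F : MvPolynomial (Fin n) K, j ∉ α → F ≠ 0 ∧ MvPolynomial.aeval x F = 0 ∧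
      F.vars ⊆ insert j α := by
    intro j
    by_cases hj : j ∈ α
    · exact ⟨0, fun h => absurd hj h⟩
    · obtain ⟨F, hF⟩ := GroRelXM.one x α hα j hj
      exact ⟨F, fun _ => hF⟩
  choose F hF using h
  exact ⟨F, hF⟩

end Pool.Agent.Lib.MP_16285c_agX
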