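import Pool.Agent.Lib.MP_16285c_agX.Gro.Spec

/-!
# MP_16285c_ag, project ZDX, Gro/RsE: residues (helper97)
-/

set_option autoImplicit false

namespace Pool.Agent.Lib.MP_16285c_agX

open Pool.Agent.Lib.MP_16285c_ag Pool.Agent.Lib.MP_16285c_agN
open Pool.Agent.Lib.MP_16285c_agS (toF)

namespace GroRsEM

theorem ker {K : Type} [Field K] {n : ℕ} (𝔭 : Ideal (Pl n K)) (L : Type) [Field L] [Algebra (CR 𝔭) L]
    [IsFractionRing (CR 𝔭) L] (G : Pl n K) : toF 𝔭 L G = 0 ↔ G ∈ 𝔭 := by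
  have h : toF 𝔭 L G = algebraMap (CR 𝔭) L (Ideal.Quotient.mk 𝔭 G) := rfl
  rw [h, ← Ideal.Quotient.eq_zero_iff_mem]
  constructor
  · intro h1
    apply IsFractionRing.injective (CR 𝔭) L
    rw [h1, map_zero]
  · intro h1
    rw [h1, map_zero]

theorem const {K : Type} [Field K] {n : ℕ} (𝔭 : Ideal (Pl n K)) (L : Type) [Field L] [Algebra (CR 𝔭) L]
    [Algebra K L] [IsScalarTower K (CR 𝔭) L] (c : K) : toF 𝔭 L (MvPolynomial.C c) = algebraMap K L c := by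
  have h : toF 𝔭 L (MvPolynomial.C c) = algebraMap (CR 𝔭) L (algebraMap K (CR 𝔭) c) := rfl
  rw [h, ← IsScalarTower.algebraMap_apply]

end GroRsEM

theorem tRsE : StmtRsE := by
  intro K _ n 𝔮 𝔭 _ hp h𝔮𝔭 E _ _ _ _ _ L _ _ _ _ _
  have h1p : (1 : Pl n K) ∉ 𝔭 := fun h => hp.ne_top ((Ideal.eq_top_iff_one 𝔭).2 h)
  have hmul : ∀ B B' : Pl n K, B ∉ 𝔭 → B' ∉ 𝔭 → B * B' ∉ 𝔭 := by
    intro B B' hB hB' h
    rcases hp.mem_or_mem h with h | h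
    · exact hB h
    · exact hB' h
  refine ⟨?_, ?_, ?_, ?_, ?_, ?_⟩
  · rintro h u u' ⟨A, B, hB, e1, e2⟩ ⟨A', B', hB', e1', e2'⟩
    have h0 : toF 𝔮 E (A * B' - A' * B) = 0 := by
      rw [map_sub, map_mul, map_mul, ← e1, ← e1']
      ring
    have h1 : A * B' - A' * B ∈ 𝔭 := h𝔮𝔭 ((GroRsEM.ker 𝔮 E _).1 h0)
    have h2 : toF 𝔭 L (A * B' - A' * B) = 0 := (GroRsEM.ker 𝔭 L _).2 h1
    rw [map_sub, map_mul, map_mul, ← e2, ← e2'] at h2
    have hB0 : toF 𝔭 L B ≠ 0 := fun h => hB ((GroRsEM.ker 𝔭 L _).1 h)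
    have hB0' : toF 𝔭 L B' ≠ 0 := fun h => hB' ((GroRsEM.ker 𝔭 L _).1 h)
    have h3 : (u - u') * (toF 𝔭 L B * toF 𝔭 L B') = 0 := by
      rw [← h2]
      ring
    rcases mul_eq_zero.1 h3 with h4 | h4
    · exact sub_eq_zero.1 h4
    · exact absurd h4 (mul_ne_zero hB0 hB0')
  · intro G
    exact ⟨G, 1, h1p, by rw [map_one, mul_one], by rw [map_one, mul_one]⟩
  · intro c
    exact ⟨MvPolynomial.C c, 1, h1p, by rw [map_one, mul_one, GroRsEM.const],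
      by rw [map_one, mul_one, GroRsEM.const]⟩
  · rintro h h' u u' ⟨A, B, hB, e1, e2⟩ ⟨A', B', hB', e1', e2'⟩
    refine ⟨A * B' + A' * B, B * B', hmul B B' hB hB', ?_, ?_⟩
    · rw [map_add, map_mul, map_mul, map_mul, ← e1, ← e1']
      ring
    · rw [map_add, map_mul, map_mul, map_mul, ← e2, ← e2']
      ring
  · rintro h h' u u' ⟨A, B, hB, e1, e2⟩ ⟨A', B', hB', e1', e2'⟩
    refine ⟨A * A', B * B', hmul B B' hB hB', ?_, ?_⟩
    · rw [map_mul, map_mul, ← e1, ← e1']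
      ring
    · rw [map_mul, map_mul, ← e2, ← e2']
      ring
  · rintro h u ⟨A, B, hB, e1, e2⟩ hu
    have hB0 : toF 𝔭 L B ≠ 0 := fun h => hB ((GroRsEM.ker 𝔭 L _).1 h)
    have hA0 : toF 𝔭 L A ≠ 0 := by
      rw [← e2]
      exact mul_ne_zero hu hB0
    have hA : A ∉ 𝔭 := fun h => hA0 ((GroRsEM.ker 𝔭 L _).2 h)
    have hAq : toF 𝔮 E A ≠ 0 := fun h => hA (h𝔮𝔭 ((GroRsEM.ker 𝔮 E _).1 h))
    have hh : h ≠ 0 := by
      intro h0
      apply hAq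
      rw [← e1, h0, zero_mul]
    refine ⟨hh, B, A, hA, ?_, ?_⟩
    · rw [← e1, inv_mul_cancel_left₀ hh]
    · rw [← e2, inv_mul_cancel_left₀ hu]

end Pool.Agent.Lib.MP_16285c_agX
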