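import Pool.Agent.Lib.MP_16285c_agX.Gro.Spec
import Pool.Agent.Lib.MP_16285c_agN.Low

/-!
# Compatibility of the residues on the hypersurface with the restrictions of the map (E2)
-/

set_option autoImplicit false

namespace Pool.Agent.Lib.MP_16285c_agX

open Pool.Agent.Lib.MP_16285c_ag Pool.Agent.Lib.MP_16285c_agN
open Pool.Agent.Lib.MP_16285c_agS (toF)

namespace GroRsRM

theorem step {K : Type} [Field K] {n : ℕ} {𝔮 𝔭 : Ideal (Pl n K)} [𝔮.IsPrime] [𝔭.IsPrime] (hle : 𝔮 ≤ 𝔭)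
    {E : Type} [Field E] [Algebra (CR 𝔮) E] [IsFractionRing (CR 𝔮) E] [Algebra K E]
    {L : Type} [Field L] [Algebra (CR 𝔭) L] [Algebra K L] {σ : RF n K →ₐ[K] RF n K} {ρ : E →ₐ[K] E} {ρb : L →ₐ[K] L}
    (hρ : Rst σ 𝔮 E ρ) (hρb : Rst σ 𝔭 L ρb) (h : E) (u : L) (hu : RsE 𝔮 𝔭 E L h u) :
    RsE 𝔮 𝔭 E L (ρ h) (ρb u) := by
  obtain ⟨A, B, hB, h1, h2⟩ := hu
  have hB0 : B ≠ 0 := fun h0 => hB (h0 ▸ 𝔭.zero_mem)
  have hfB : fr B ≠ 0 := by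
    intro h0
    exact hB0 (IsFractionRing.injective (Pl n K) (RF n K) (h0.trans (map_zero _).symm))
  have hg : fr A / fr B * fr B = fr A := div_mul_cancel₀ _ hfB
  have r1 : Rsd 𝔮 E (fr A / fr B) h := ⟨A, B, fun hq => hB (hle hq), hg, h1⟩
  have r2 : Rsd 𝔭 L (fr A / fr B) u := ⟨A, B, hB, hg, h2⟩
  have r3 := hρ _ _ r1
  obtain ⟨N, D, hD, e1, e2⟩ := hρb _ _ r2
  have hDq : D ∉ 𝔮 := fun hq => hD (hle hq)
  have hD0 : algebraMap (CR 𝔮) E (cl 𝔮 D) ≠ 0 := LowM.cl_ne hDq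
  have e3 : algebraMap (CR 𝔮) E (cl 𝔮 N) / algebraMap (CR 𝔮) E (cl 𝔮 D) * algebraMap (CR 𝔮) E (cl 𝔮 D) =
      algebraMap (CR 𝔮) E (cl 𝔮 N) := div_mul_cancel₀ _ hD0
  have r4 : Rsd 𝔮 E (σ (fr A / fr B)) (algebraMap (CR 𝔮) E (cl 𝔮 N) / algebraMap (CR 𝔮) E (cl 𝔮 D)) :=
    ⟨N, D, hDq, e1, e3⟩
  have e4 := LowM.uniq r3 r4
  refine ⟨N, D, hD, ?_, e2⟩
  rw [e4]
  exact e3

end GroRsRM

open GroRsRM in
theorem tRsR : StmtRsR := by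
  intro K _ n 𝔮 𝔭 _ _ hle E _ _ _ _ _ L _ _ _ _ _ σ ρ ρb hρ hρb m
  induction m with
  | zero =>
    intro h u hu
    rw [pow_zero, pow_zero]
    exact hu
  | succ m ih =>
    intro h u hu
    rw [pow_succ, pow_succ]
    exact ih _ _ (step hle hρ hρb h u hu)

end Pool.Agent.Lib.MP_16285c_agX
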