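import Pool.Agent.Lib.MP_16285c_agX.Gro.Spec

/-!
# Transcendence bases
-/

set_option autoImplicit false

namespace Pool.Agent.Lib.MP_16285c_agX

open Pool.Agent.Lib.MP_16285c_ag Pool.Agent.Lib.MP_16285c_agN
open Pool.Agent.Lib.MP_16285c_agS (toF)

namespace GroTBM

open scoped IntermediateField.algebraAdjoinAdjoin in
/-- Algebraic over the field is algebraic over the ring. -/
theorem alg_ring {K L : Type} [Field K] [Field L] [Algebra K L] (s : Set L)
    (h : Algebra.IsAlgebraic (IntermediateField.adjoin K s) L) :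
    Algebra.IsAlgebraic (Algebra.adjoin K s) L :=
  (IsFractionRing.comap_isAlgebraic_iff (A := Algebra.adjoin K s)
    (K := IntermediateField.adjoin K s) (C := L)).mpr h

open scoped IntermediateField.algebraAdjoinAdjoin in
theorem alg_ring_iff {K L : Type} [Field K] [Field L] [Algebra K L] (s : Set L) :
    Algebra.IsAlgebraic (Algebra.adjoin K s) L ↔
      Algebra.IsAlgebraic (IntermediateField.adjoin K s) L :=
  IsFractionRing.comap_isAlgebraic_iff (A := Algebra.adjoin K s)
    (K := IntermediateField.adjoin K s) (C := L)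

theorem part1 (K L : Type) [Field K] [Field L] [Algebra K L] (m : ℕ) (u : Fin m → L)
    (h : Algebra.IsAlgebraic (IntermediateField.adjoin K (Set.range u)) L) :
    ∃ α : Finset (Fin m), IsTranscendenceBasis K (fun a : α => u (a : Fin m)) := by
  classical
  have halg := alg_ring (Set.range u) h
  obtain ⟨t, hts, ht⟩ := exists_isTranscendenceBasis_subset (R := K) (Set.range u)
  choose i hi using fun y : t => hts y.2
  have hinj : Function.Injective i := by
    intro y z hyz
    apply Subtype.ext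
    rw [← hi y, ← hi z, hyz]
  have : Finite t := Finite.of_injective i hinj
  have : Fintype t := Fintype.ofFinite t
  have hmem : ∀ y : t, i y ∈ Finset.univ.image i := fun y =>
    Finset.mem_image_of_mem i (Finset.mem_univ y)
  let e : t ≃ (Finset.univ.image i : Finset (Fin m)) :=
    Equiv.ofBijective (fun y => ⟨i y, hmem y⟩) ⟨fun y z hyz => hinj (Subtype.ext_iff.mp hyz), by
      rintro ⟨a, ha⟩
      obtain ⟨y, -, hy⟩ := Finset.mem_image.mp ha
      exact ⟨y, Subtype.ext hy⟩⟩
  refine ⟨Finset.univ.image i, ?_⟩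
  rw [← isTranscendenceBasis_equiv e]
  have he : (fun a : (Finset.univ.image i : Finset (Fin m)) => u (a : Fin m)) ∘ e =
      ((↑) : t → L) := by
    funext y
    exact hi y
  rw [he]
  exact ht

theorem trdeg_CR {K : Type} [Field K] {n : ℕ} (𝔭 : Ideal (Pl n K)) [𝔭.IsPrime] (L : Type)
    [Field L] [Algebra (CR 𝔭) L] [IsFractionRing (CR 𝔭) L] [Algebra K L]
    [IsScalarTower K (CR 𝔭) L] : Algebra.trdeg K L = Algebra.trdeg K (CR 𝔭) := by
  have hinj : Function.Injective (algebraMap (CR 𝔭) L) := IsFractionRing.injective (CR 𝔭) L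
  have : FaithfulSMul (CR 𝔭) L := (faithfulSMul_iff_algebraMap_injective _ _).mpr hinj
  have h1 := trdeg_add_eq K (CR 𝔭) (A := L)
  have h3 : Algebra.IsAlgebraic (CR 𝔭) L :=
    IsLocalization.isAlgebraic _ (nonZeroDivisors (CR 𝔭))
  have h2 : Algebra.trdeg (CR 𝔭) L = 0 := trdeg_eq_zero
  rw [h2, add_zero] at h1
  exact h1.symm

theorem part2 (K : Type) [Field K] (n : ℕ) (𝔭 : Ideal (Pl n K)) [𝔭.IsPrime] (L : Type)
    [Field L] [Algebra (CR 𝔭) L] [IsFractionRing (CR 𝔭) L] [Algebra K L]
    [IsScalarTower K (CR 𝔭) L] (ι : Type) [Fintype ι] (u : ι → L)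
    (h : IsTranscendenceBasis K u) : Fintype.card ι = rk 𝔭 := by
  have hc := h.cardinalMk_eq_trdeg
  unfold rk
  rw [← trdeg_CR 𝔭 L, ← hc, Cardinal.mk_fintype, Cardinal.toNat_natCast]

/-- Values of polynomials. -/
theorem toF_aeval {K : Type} [Field K] {n : ℕ} (𝔭 : Ideal (Pl n K)) (L : Type)
    [Field L] [Algebra (CR 𝔭) L] [Algebra K L] [IsScalarTower K (CR 𝔭) L] (G : Pl n K) :
    toF 𝔭 L G = MvPolynomial.aeval (fun i => toF 𝔭 L (MvPolynomial.X i)) G := by
  induction G using MvPolynomial.induction_on with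
  | C c =>
    rw [MvPolynomial.aeval_C, IsScalarTower.algebraMap_apply K (CR 𝔭) L]
    rfl
  | add a b ha hb => rw [map_add, map_add, ha, hb]
  | mul_X a i ha => rw [map_mul, map_mul, ha, MvPolynomial.aeval_X]

/-- The equation of `X 0`. -/
theorem eqn {K L : Type} [Field K] [Field L] [Algebra K L] {n : ℕ} (x : Fin (n + 1) → L)
    (G : Pl (n + 1) K) :
    MvPolynomial.aeval x G = Polynomial.eval₂
      (MvPolynomial.aeval (fun j : Fin n => x j.succ) : MvPolynomial (Fin n) K →ₐ[K] L).toRingHom
      (x 0) (MvPolynomial.finSuccEquiv K n G) := by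
  induction G using MvPolynomial.induction_on with
  | C c =>
    rw [MvPolynomial.aeval_C, MvPolynomial.finSuccEquiv_apply, MvPolynomial.eval₂Hom_C]
    simp
  | add a b ha hb => rw [map_add, map_add, Polynomial.eval₂_add, ha, hb]
  | mul_X a i ha =>
    rw [map_mul, map_mul, Polynomial.eval₂_mul, ha, MvPolynomial.aeval_X]
    congr 1
    refine Fin.cases ?_ (fun j => ?_) i
    · rw [MvPolynomial.finSuccEquiv_X_zero, Polynomial.eval₂_X]
    · rw [MvPolynomial.finSuccEquiv_X_succ, Polynomial.eval₂_C]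
      simp

theorem part3 (K : Type) [Field K] (n : ℕ) (P : Pl (n + 1) K) (𝔭 : Ideal (Pl (n + 1) K))
    [𝔭.IsPrime] (hM : MonZ P) (hP : P ∈ 𝔭) (L : Type) [Field L] [Algebra (CR 𝔭) L]
    [IsFractionRing (CR 𝔭) L] [Algebra K L] [IsScalarTower K (CR 𝔭) L] :
    Algebra.IsAlgebraic (IntermediateField.adjoin K
      (Set.range fun j : Fin n => toF 𝔭 L (MvPolynomial.X j.succ))) L := by
  obtain ⟨F, hF⟩ : ∃ F : IntermediateField K L, F = IntermediateField.adjoin K
      (Set.range fun j : Fin n => toF 𝔭 L (MvPolynomial.X j.succ)) := ⟨_, rfl⟩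
  rw [← hF]
  have hx : ∀ j : Fin n, toF 𝔭 L (MvPolynomial.X j.succ) ∈ F := by
    intro j
    rw [hF]
    exact IntermediateField.subset_adjoin _ _ ⟨j, rfl⟩
  -- the coefficients
  let φ : MvPolynomial (Fin n) K →ₐ[K] F :=
    MvPolynomial.aeval fun j : Fin n => (⟨toF 𝔭 L (MvPolynomial.X j.succ), hx j⟩ : F)
  have hφ : ∀ G, ((φ G : F) : L) =
      MvPolynomial.aeval (fun j : Fin n => toF 𝔭 L (MvPolynomial.X j.succ)) G := by
    intro G
    have h := MvPolynomial.comp_aeval_apply
      (fun j : Fin n => (⟨toF 𝔭 L (MvPolynomial.X j.succ), hx j⟩ : F)) F.val G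
    exact h
  have hz : IsIntegral F (toF 𝔭 L (MvPolynomial.X 0)) := by
    refine ⟨(MvPolynomial.finSuccEquiv K n P).map φ.toRingHom, hM.map _, ?_⟩
    rw [Polynomial.eval₂_map]
    have h1 := eqn (fun i => toF 𝔭 L (MvPolynomial.X i)) P
    rw [← toF_aeval 𝔭 L P] at h1
    have h2 : toF 𝔭 L P = 0 := by
      show algebraMap (CR 𝔭) L (Ideal.Quotient.mk 𝔭 P) = 0
      rw [Ideal.Quotient.eq_zero_iff_mem.mpr hP, map_zero]
    rw [h2] at h1
    rw [h1]
    congr 1
    exact RingHom.ext fun G => hφ G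
  have hA : ∀ G : Pl (n + 1) K, toF 𝔭 L G ∈ algebraicClosure F L := by
    intro G
    induction G using MvPolynomial.induction_on with
    | C c =>
      have h1 : toF 𝔭 L (MvPolynomial.C c) = algebraMap F L (algebraMap K F c) := by
        rw [toF_aeval, MvPolynomial.aeval_C]
        rfl
      rw [h1]
      exact (algebraicClosure F L).algebraMap_mem _
    | add a b ha hb =>
      rw [map_add]
      exact add_mem ha hb
    | mul_X a i ha =>
      rw [map_mul]
      refine mul_mem ha ?_
      refine Fin.cases ?_ (fun j => ?_) i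
      · exact mem_algebraicClosure_iff.mpr hz.isAlgebraic
      · exact (algebraicClosure F L).algebraMap_mem (⟨toF 𝔭 L (MvPolynomial.X j.succ), hx j⟩ : F)
  constructor
  intro a
  obtain ⟨b, c, -, hbc⟩ := IsFractionRing.div_surjective (A := CR 𝔭) a
  obtain ⟨B, rfl⟩ := Ideal.Quotient.mk_surjective b
  obtain ⟨C, rfl⟩ := Ideal.Quotient.mk_surjective c
  rw [← mem_algebraicClosure_iff, ← hbc]
  exact div_mem (hA B) (hA C)

/-- Polynomials without `X 0`. -/
theorem fse_rename {K : Type} [Field K] {n : ℕ} (G : MvPolynomial (Fin n) K) :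
    MvPolynomial.finSuccEquiv K n (MvPolynomial.rename Fin.succ G) = Polynomial.C G := by
  induction G using MvPolynomial.induction_on with
  | C c =>
    rw [MvPolynomial.rename_C, MvPolynomial.finSuccEquiv_apply, MvPolynomial.eval₂Hom_C]
    rfl
  | add a b ha hb => rw [map_add, map_add, ha, hb, map_add]
  | mul_X a i ha =>
    rw [map_mul, map_mul, ha, MvPolynomial.rename_X, MvPolynomial.finSuccEquiv_X_succ, map_mul]

theorem part4 (K : Type) [Field K] (n : ℕ) (P : Pl (n + 1) K) [hp : (Ideal.span {P}).IsPrime]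
    (hM : MonZ P) (E : Type) [Field E] [Algebra (CR (Ideal.span {P})) E]
    [IsFractionRing (CR (Ideal.span {P})) E] [Algebra K E]
    [IsScalarTower K (CR (Ideal.span {P})) E] : Algebra.trdeg K E = n := by
  have hP : P ∈ Ideal.span {P} := Ideal.subset_span rfl
  have halg := (alg_ring_iff _).mpr (part3 K n P (Ideal.span {P}) hM hP E)
  have hnu : ¬ IsUnit P := by
    intro h
    exact hp.ne_top (Ideal.span_singleton_eq_top.mpr h)
  have hind : AlgebraicIndependent K
      (fun j : Fin n => toF (Ideal.span {P}) E (MvPolynomial.X j.succ)) := by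
    rw [algebraicIndependent_iff]
    intro G hG
    have h1 : toF (Ideal.span {P}) E (MvPolynomial.rename Fin.succ G) = 0 := by
      rw [toF_aeval, MvPolynomial.aeval_rename]
      exact hG
    have h2 : MvPolynomial.rename Fin.succ G ∈ Ideal.span {P} := by
      rw [← Ideal.Quotient.eq_zero_iff_mem]
      apply IsFractionRing.injective (CR (Ideal.span {P})) E
      rw [map_zero]
      exact h1
    rw [Ideal.mem_span_singleton] at h2
    have h3 := map_dvd (MvPolynomial.finSuccEquiv K n) h2
    rw [fse_rename] at h3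
    by_contra hne
    have h4 := Polynomial.natDegree_le_of_dvd h3 (Polynomial.C_ne_zero.mpr hne)
    rw [Polynomial.natDegree_C] at h4
    have h5 : (MvPolynomial.finSuccEquiv K n P) = 1 :=
      hM.natDegree_eq_zero.mp (Nat.le_zero.mp h4)
    apply hnu
    have h6 : P = 1 := by
      apply (MvPolynomial.finSuccEquiv K n).injective
      rw [h5, map_one]
    rw [h6]
    exact isUnit_one
  have hb := hind.isTranscendenceBasis_iff_isAlgebraic.mpr halg
  have hc := hb.cardinalMk_eq_trdeg
  rw [← hc, Cardinal.mk_fintype, Fintype.card_fin]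

end GroTBM

theorem tTB : StmtTB :=
  ⟨GroTBM.part1, GroTBM.part2, GroTBM.part3, fun K _ n P _ hM E _ _ _ _ _ => GroTBM.part4 K n P hM E⟩

end Pool.Agent.Lib.MP_16285c_agX
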