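import Pool.Agent.Lib.MP_16285c_agX.Gro.Spec
import Pool.Agent.Lib.MP_16285c_agN.Degr.Theta

/-!
# Bases of polynomial functions of generators
-/

set_option autoImplicit false

open Pool.Agent.Lib.MP_16285c_ag Pool.Agent.Lib.MP_16285c_agN

namespace Pool.Agent.Lib.MP_16285c_agX

/-- The values of suitable polynomials at generators are linearly independent over a subfield of
finite index. -/
theorem tThetaX : StmtThetaX := by
  intro K L _ _ _ m u hu κb hfin
  have : Module.Finite κb L := hfin
  have halg : Algebra.IsAlgebraic κb L := inferInstance
  refine DegrThetaM.exists_fam (P := MvPolynomial (Fin m) K)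
    (fun G => MvPolynomial.aeval u G) ?_ hfin _ rfl
  refine DegrThetaM.span_range (MvPolynomial.aeval (R := K) u : MvPolynomial (Fin m) K →ₐ[K] L).toRingHom ?_
  intro x
  have hx : x ∈ IntermediateField.adjoin K (Set.range u) := by
    rw [hu]
    exact IntermediateField.mem_top
  exact (IntermediateField.mem_adjoin_range_iff K u x).1 hx

end Pool.Agent.Lib.MP_16285c_agX
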