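import Pool.Agent.Lib.MP_16285c_agX.Gro.Spec

/-!
# Gro/TpX: the topological degree over the larger field is at most the topological degree over the smaller field
-/

set_option autoImplicit false

namespace Pool.Agent.Lib.MP_16285c_agX.GroTpXM

/-- The general form: `F₀ ⊆ E`, `F ⊆ E'`, `θ : F₀ → F`, `β : E → E'` compatible, `E'` generated over `k ⊆ F` by the image of `E`. -/
theorem key (k F₀ F E E' : Type) [Field k] [Field F₀] [Field F] [Field E] [Field E'] [Algebra F₀ E]
    [Module.Finite F₀ E] [Algebra k F] [Algebra F E'] [Algebra k E'] [IsScalarTower k F E']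
    (θ : F₀ →+* F) (β : E →+* E') (hθv : ∀ x, algebraMap F E' (θ x) = β (algebraMap F₀ E x))
    (m : ℕ) (y : Fin m → E) (hy : IntermediateField.adjoin k (Set.range fun i => β (y i)) = ⊤) :
    Module.finrank F E' ≤ Module.finrank F₀ E := by
  have hint : ∀ h : E, IsIntegral F (β h) := fun h =>
    IsIntegral.map_of_comp_eq θ β (RingHom.ext fun x => hθv x)
      (Algebra.IsIntegral.isIntegral (R := F₀) h)
  have htop : IntermediateField.adjoin F (Set.range β) = ⊤ := by
    rw [eq_top_iff]
    intro x _
    have h1 : x ∈ IntermediateField.adjoin k (Set.range fun i => β (y i)) := by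
      rw [hy]
      exact IntermediateField.mem_top
    have h2 : IntermediateField.adjoin k (Set.range fun i => β (y i)) ≤
        (IntermediateField.adjoin F (Set.range β)).restrictScalars k := by
      rw [IntermediateField.adjoin_le_iff]
      rintro _ ⟨i, rfl⟩
      exact IntermediateField.subset_adjoin F _ ⟨y i, rfl⟩
    exact (IntermediateField.mem_restrictScalars k).1 (h2 h1)
  have halg : Algebra.adjoin F (Set.range β) = ⊤ := by
    have h1 := IntermediateField.adjoin_toSubalgebra_of_isAlgebraic (F := F) (E := E')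
      (S := Set.range β) (by rintro _ ⟨h, rfl⟩; exact (hint h).isAlgebraic)
    rw [htop, IntermediateField.top_toSubalgebra] at h1
    exact h1.symm
  have hspan : Submodule.span F (Set.range β) = ⊤ := by
    have h2 := Algebra.adjoin_eq_span F (Set.range β)
    rw [halg, Algebra.top_toSubmodule] at h2
    have h3 : (Submonoid.closure (Set.range β) : Set E') = Set.range β := by
      have h4 : Submonoid.closure ((MonoidHom.mrange (β : E →* E') : Submonoid E') : Set E') =
          MonoidHom.mrange (β : E →* E') := Submonoid.closure_eq _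
      exact congrArg (fun s : Submonoid E' => (s : Set E')) h4
    rw [h3] at h2
    exact h2.symm
  obtain ⟨b⟩ : Nonempty (Module.Basis (Fin (Module.finrank F₀ E)) F₀ E) := ⟨Module.finBasis F₀ E⟩
  have hV : Submodule.span F (Set.range fun i => β (b i)) = ⊤ := by
    rw [eq_top_iff, ← hspan, Submodule.span_le]
    rintro _ ⟨h, rfl⟩
    rw [← b.sum_repr h, map_sum]
    refine Submodule.sum_mem _ fun i _ => ?_
    have h2 : β (b.repr h i • b i) = θ (b.repr h i) • β (b i) := by
      rw [Algebra.smul_def, map_mul, Algebra.smul_def, hθv]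
    rw [h2]
    exact Submodule.smul_mem _ _ (Submodule.subset_span ⟨i, rfl⟩)
  have h1 : (Set.range fun i => β (b i)).finrank F ≤ Fintype.card (Fin (Module.finrank F₀ E)) :=
    finrank_range_le_card _
  rw [Set.finrank, hV, finrank_top, Fintype.card_fin] at h1
  exact h1

end Pool.Agent.Lib.MP_16285c_agX.GroTpXM

namespace Pool.Agent.Lib.MP_16285c_agX

open Pool.Agent.Lib.MP_16285c_ag Pool.Agent.Lib.MP_16285c_agN

theorem tTpX : StmtTpX := by
  intro K k _ _ _ E E' _ _ _ _ _ _ β ρ φ hβ hfin m y hy
  have hθ : ∀ x : ρ.fieldRange, β (x : E) ∈ φ.fieldRange := by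
    rintro ⟨x, c, rfl⟩
    exact ⟨β c, (hβ c).symm⟩
  exact GroTpXM.key k ρ.fieldRange φ.fieldRange E E'
    (((β : E →+* E').comp (algebraMap ρ.fieldRange E)).codRestrict φ.fieldRange (fun x => hθ x))
    (β : E →+* E') (fun x => rfl) m y hy

end Pool.Agent.Lib.MP_16285c_agX
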