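import Pool.Agent.Lib.MP_16285c_agX.Gro.Spec

/-!
# (E19) The coordinates `y` over `K`
-/

set_option autoImplicit false

namespace Pool.Agent.Lib.MP_16285c_agX.GroYXM

open Pool.Agent.Lib.MP_16285c_ag Pool.Agent.Lib.MP_16285c_agN
open Pool.Agent.Lib.MP_16285c_agS (toF)

theorem toF_C {K : Type} [Field K] {n : ℕ} (𝔭 : Ideal (Pl n K)) (L : Type) [Field L] [Algebra (CR 𝔭) L]
    [Algebra K L] [IsScalarTower K (CR 𝔭) L] (c : K) :
    toF 𝔭 L (MvPolynomial.C c) = algebraMap K L c := by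
  rw [IsScalarTower.algebraMap_apply K (CR 𝔭) L]
  rfl

theorem toF_eq_zero {K : Type} [Field K] {n : ℕ} (𝔭 : Ideal (Pl n K)) [𝔭.IsPrime] (L : Type) [Field L]
    [Algebra (CR 𝔭) L] [IsFractionRing (CR 𝔭) L] (G : Pl n K) : toF 𝔭 L G = 0 ↔ G ∈ 𝔭 := by
  have h : Function.Injective (algebraMap (CR 𝔭) L) := IsFractionRing.injective (CR 𝔭) L
  rw [RingHom.comp_apply, map_eq_zero_iff _ h, Ideal.Quotient.eq_zero_iff_mem]

theorem gen {K : Type} [Field K] {n : ℕ} (𝔭 : Ideal (Pl n K)) [𝔭.IsPrime] (L : Type) [Field L]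
    [Algebra (CR 𝔭) L] [IsFractionRing (CR 𝔭) L] [Algebra K L] [IsScalarTower K (CR 𝔭) L]
    (F : IntermediateField K L) (h : ∀ j, toF 𝔭 L (MvPolynomial.X j) ∈ F) : F = ⊤ := by
  have h1 : ∀ G, toF 𝔭 L G ∈ F := by
    intro G
    induction G using MvPolynomial.induction_on with
    | C a => rw [toF_C]; exact F.algebraMap_mem a
    | add p q hp hq => rw [map_add]; exact F.add_mem hp hq
    | mul_X p j hp => rw [map_mul]; exact F.mul_mem hp (h j)
  rw [eq_top_iff]
  intro z _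
  obtain ⟨a, b, hb, rfl⟩ := IsFractionRing.div_surjective (A := CR 𝔭) z
  obtain ⟨A, rfl⟩ := Ideal.Quotient.mk_surjective a
  obtain ⟨B, rfl⟩ := Ideal.Quotient.mk_surjective b
  exact F.div_mem (h1 A) (h1 B)

/-- A field containing the `u i` contains the values of polynomials. -/
theorem aeval_mem {K L : Type} [Field K] [Field L] [Algebra K L] {m : ℕ} (u : Fin m → L)
    (A : MvPolynomial (Fin m) K) : MvPolynomial.aeval u A ∈ IntermediateField.adjoin K (Set.range u) := by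
  induction A using MvPolynomial.induction_on with
  | C a =>
    rw [MvPolynomial.aeval_C]
    exact IntermediateField.algebraMap_mem _ a
  | add p q hp hq => rw [map_add]; exact IntermediateField.add_mem _ hp hq
  | mul_X p j hp =>
    rw [map_mul, MvPolynomial.aeval_X]
    exact IntermediateField.mul_mem _ hp (IntermediateField.subset_adjoin K _ ⟨j, rfl⟩)

theorem top_of {K : Type} [Field K] {n m : ℕ} (𝔭 : Ideal (Pl n K)) [𝔭.IsPrime] (L : Type) [Field L]
    [Algebra (CR 𝔭) L] [IsFractionRing (CR 𝔭) L] [Algebra K L] [IsScalarTower K (CR 𝔭) L]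
    (u : Fin m → L) (d : MvPolynomial (Fin m) K) (Z : Fin n → MvPolynomial (Fin m) K)
    (hd : MvPolynomial.aeval u d ≠ 0)
    (hZ : ∀ j, toF 𝔭 L (MvPolynomial.X j) * MvPolynomial.aeval u d = MvPolynomial.aeval u (Z j)) :
    IntermediateField.adjoin K (Set.range u) = ⊤ := by
  apply gen 𝔭 L
  intro j
  have h : toF 𝔭 L (MvPolynomial.X j) = MvPolynomial.aeval u (Z j) / MvPolynomial.aeval u d := by
    rw [eq_div_iff hd, hZ j]
  rw [h]
  exact IntermediateField.div_mem _ (aeval_mem u _) (aeval_mem u _)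

theorem beta_aeval {K k E E' : Type} [Field K] [Field k] [Algebra K k] [Field E] [Algebra K E] [Field E']
    [Algebra k E'] [Algebra K E'] [IsScalarTower K k E'] (β : E →ₐ[K] E') {m : ℕ} (y : Fin m → E)
    (y' : Fin m → E') (h : ∀ i, β (y i) = y' i) (A : MvPolynomial (Fin m) K) :
    β (MvPolynomial.aeval y A) = MvPolynomial.aeval y' (MvPolynomial.map (algebraMap K k) A) := by
  have h' : y' = fun i => β (y i) := funext fun i => (h i).symm
  rw [MvPolynomial.aeval_map_algebraMap, h']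
  exact MvPolynomial.comp_aeval_apply y β A

end Pool.Agent.Lib.MP_16285c_agX.GroYXM

namespace Pool.Agent.Lib.MP_16285c_agX

open Pool.Agent.Lib.MP_16285c_ag Pool.Agent.Lib.MP_16285c_agN GroYXM
open Pool.Agent.Lib.MP_16285c_agS (toF)

theorem tYX (hRs : StmtRsE) (hHat : StmtHat) : StmtYX := by
  intro K k _ _ _ n P hPr E _ _ _ _ _ E' _ _ _ _ ξ β hβ m y' c Y d Z hc hY hd hZ
  have hcE : toF (Ideal.span {P}) E c ≠ 0 := by
    intro h
    apply hc
    rw [← hβ, h, map_zero]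
  have hy : ∀ i, β (toF (Ideal.span {P}) E (Y i) / toF (Ideal.span {P}) E c) = y' i := by
    intro i
    rw [map_div₀, hβ, hβ, ← hY i, mul_div_cancel_right₀ _ hc]
  have hae := beta_aeval (k := k) β (fun i => toF (Ideal.span {P}) E (Y i) / toF (Ideal.span {P}) E c) y' hy
  have hdE : MvPolynomial.aeval (fun i => toF (Ideal.span {P}) E (Y i) / toF (Ideal.span {P}) E c) d ≠ 0 := by
    intro h
    apply hd
    rw [← hae, h, map_zero]
  have hZE : ∀ j, toF (Ideal.span {P}) E (MvPolynomial.X j) *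
      MvPolynomial.aeval (fun i => toF (Ideal.span {P}) E (Y i) / toF (Ideal.span {P}) E c) d =
      MvPolynomial.aeval (fun i => toF (Ideal.span {P}) E (Y i) / toF (Ideal.span {P}) E c) (Z j) := by
    intro j
    have hinj : Function.Injective β := RingHom.injective (β : E →+* E')
    apply hinj
    rw [map_mul, hae, hae, hβ, MvPolynomial.map_X, MvPolynomial.aeval_X, hZ j]
  refine ⟨fun i => toF (Ideal.span {P}) E (Y i) / toF (Ideal.span {P}) E c, hy,
    top_of (Ideal.span {P}) E _ d Z hdE hZE, hZE, ?_⟩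
  intro 𝔭 hp hPp hcd L _ _ _ _ _
  have hle : Ideal.span {P} ≤ 𝔭 := (Ideal.span_singleton_le_iff_mem 𝔭).mpr hPp
  obtain ⟨huq, hG, hC, hadd, hmul, -⟩ := hRs K (n + 1) (Ideal.span {P}) 𝔭 hle E L
  have hcp : c ∉ 𝔭 := fun h => hcd (Ideal.mul_mem_right _ 𝔭 h)
  have hdp : hatX c Y d.totalDegree d ∉ 𝔭 := fun h => hcd (Ideal.mul_mem_left 𝔭 _ h)
  have hcL : toF 𝔭 L c ≠ 0 := fun h => hcp ((toF_eq_zero 𝔭 L c).mp h)
  have hRy : ∀ i, RsE (Ideal.span {P}) 𝔭 E L (toF (Ideal.span {P}) E (Y i) / toF (Ideal.span {P}) E c)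
      (toF 𝔭 L (Y i) / toF 𝔭 L c) := fun i =>
    ⟨Y i, c, hcp, div_mul_cancel₀ _ hcE, div_mul_cancel₀ _ hcL⟩
  have hRA : ∀ A : MvPolynomial (Fin m) K, RsE (Ideal.span {P}) 𝔭 E L
      (MvPolynomial.aeval (fun i => toF (Ideal.span {P}) E (Y i) / toF (Ideal.span {P}) E c) A)
      (MvPolynomial.aeval (fun i => toF 𝔭 L (Y i) / toF 𝔭 L c) A) := by
    intro A
    induction A using MvPolynomial.induction_on with
    | C a =>
      rw [MvPolynomial.aeval_C, MvPolynomial.aeval_C]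
      exact hC a
    | add p q hp' hq' =>
      rw [map_add, map_add]
      exact hadd _ _ _ _ hp' hq'
    | mul_X p j hp' =>
      rw [map_mul, map_mul, MvPolynomial.aeval_X, MvPolynomial.aeval_X]
      exact hmul _ _ _ _ hp' (hRy j)
  let θ : Pl (n + 1) K →ₐ[K] L := { toF 𝔭 L with commutes' := fun a => toF_C 𝔭 L a }
  have hθ : ∀ G, θ G = toF 𝔭 L G := fun G => rfl
  have hdL : MvPolynomial.aeval (fun i => toF 𝔭 L (Y i) / toF 𝔭 L c) d ≠ 0 := by
    intro h
    apply hdp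
    rw [← toF_eq_zero 𝔭 L, ← hθ,
      hHat.1 K (Pl (n + 1) K) L m c Y d.totalDegree d le_rfl θ (fun i => toF 𝔭 L (Y i) / toF 𝔭 L c)
        (fun i => div_mul_cancel₀ _ hcL), h, mul_zero]
  refine ⟨fun i => toF 𝔭 L (Y i) / toF 𝔭 L c, ?_, hRy, hdL⟩
  apply top_of 𝔭 L _ d Z hdL
  intro j
  refine huq _ _ _ (hmul _ _ _ _ (hG (MvPolynomial.X j)) (hRA d)) ?_
  rw [hZE j]
  exact hRA (Z j)

end Pool.Agent.Lib.MP_16285c_agX
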