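import Pool.Agent.Lib.MP_16285c_agN.AllA
import Pool.Agent.Lib.MP_16285c_agX.G.Hat
import Pool.Agent.Lib.MP_16285c_agX.Gro.BkX
import Pool.Agent.Lib.MP_16285c_agX.Gro.Bet
import Pool.Agent.Lib.MP_16285c_agX.Gro.CmpB
import Pool.Agent.Lib.MP_16285c_agX.Gro.DegrPX
import Pool.Agent.Lib.MP_16285c_agX.Gro.DescX
import Pool.Agent.Lib.MP_16285c_agX.Gro.GroX
import Pool.Agent.Lib.MP_16285c_agX.Gro.LocO
import Pool.Agent.Lib.MP_16285c_agX.Gro.LowA
import Pool.Agent.Lib.MP_16285c_agX.Gro.LowB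
import Pool.Agent.Lib.MP_16285c_agX.Gro.LowC
import Pool.Agent.Lib.MP_16285c_agX.Gro.LowF
import Pool.Agent.Lib.MP_16285c_agX.Gro.RelX
import Pool.Agent.Lib.MP_16285c_agX.Gro.ResX
import Pool.Agent.Lib.MP_16285c_agX.Gro.RsE
import Pool.Agent.Lib.MP_16285c_agX.Gro.RsR
import Pool.Agent.Lib.MP_16285c_agX.Gro.TB
import Pool.Agent.Lib.MP_16285c_agX.Gro.ThetaX
import Pool.Agent.Lib.MP_16285c_agX.Gro.TpX
import Pool.Agent.Lib.MP_16285c_agX.Gro.TrdX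
import Pool.Agent.Lib.MP_16285c_agX.Gro.YX

/-!
# Growth on subvarieties of the hypersurface: closed form
-/

set_option autoImplicit false

namespace Pool.Agent.Lib.MP_16285c_agX

open Pool.Agent.Lib.MP_16285c_ag Pool.Agent.Lib.MP_16285c_agN

theorem aDegrPX : StmtDegrPX :=
  tDegrPX tRsE (tLocO tRsE tA2) tLowF (tLowB tLowA) (tLowC tVd) tTB tRelX (tResX tRsE) tThetaX
    tTrdX tBkX tHat (tNum tCnt) tNN tUpF (tUp tVd) tG1

theorem aGroX : StmtGroX :=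
  tGroX tRsR aDegrPX tBet tCmpB tDescX tTpX (tYX tRsE tHat) tHat tG1 tReal2

end Pool.Agent.Lib.MP_16285c_agX
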