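import Pool.Agent.Lib.MP_16285c_agX.Gro.Spec

/-!
# MP_16285c, ZDX: transcendence degrees (proof of `StmtTrdX`)
-/

set_option autoImplicit false

namespace Pool.Agent.Lib.MP_16285c_agX

open Pool.Agent.Lib.MP_16285c_ag Pool.Agent.Lib.MP_16285c_agN

namespace GroTrdXM

open scoped IntermediateField.algebraAdjoinAdjoin

/-- `E / K(S)` algebraic implies `E` algebraic over the algebra generated by `S`. -/
theorem alg_of_adjoin {K E : Type} [Field K] [Field E] [Algebra K E] (S : Set E)
    (h : Algebra.IsAlgebraic (IntermediateField.adjoin K S) E) :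
    Algebra.IsAlgebraic (Algebra.adjoin K S) E :=
  Algebra.IsAlgebraic.trans (Algebra.adjoin K S) (IntermediateField.adjoin K S) E

end GroTrdXM

open GroTrdXM

/-- Proof of `StmtTrdX`. -/
theorem tTrdX : StmtTrdX := by
  intro K E _ _ _ n hn ι _ y s l hy hl hfin
  set κ := IntermediateField.adjoin K (Set.range y) with hκ
  let y' : ι → κ := fun i => ⟨y i, IntermediateField.subset_adjoin K _ ⟨i, rfl⟩⟩
  have hcomp : (algebraMap κ E) ∘ y' = y := rfl
  have hy' : AlgebraicIndependent K y' := by
    refine AlgebraicIndependent.of_comp (IsScalarTower.toAlgHom K κ E) ?_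
    exact hy
  have hind : AlgebraicIndependent K (Sum.elim l y) := by
    have h := hy'.sumElim_comp hl
    rw [hcomp] at h
    exact h
  have halg : Algebra.IsAlgebraic
      (IntermediateField.adjoin K (Set.range (Sum.elim l y))) E := by
    have h1 : Set.range (Sum.elim l y) = Set.range y ∪ Set.range l := by
      rw [Set.Sum.elim_range, Set.union_comm]
    have h2 := IntermediateField.adjoin_adjoin_left K (Set.range y) (Set.range l)
    constructor
    intro x
    have h3 : IsAlgebraic (IntermediateField.adjoin κ (Set.range l)) x :=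
      Algebra.IsAlgebraic.isAlgebraic x
    rw [h1, ← h2]
    exact h3
  have hb : IsTranscendenceBasis K (Sum.elim l y) :=
    isTranscendenceBasis_iff_algebraicIndependent_isAlgebraic.2 ⟨hind, alg_of_adjoin _ halg⟩
  have hc := hb.cardinalMk_eq_trdeg
  rw [hn, Cardinal.mk_fintype, Nat.cast_inj, Fintype.card_sum, Fintype.card_fin] at hc
  omega

end Pool.Agent.Lib.MP_16285c_agX
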